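import Pool.Agent.Run7.h918.SP.Ap

/-!
# The elliptic quadric: `r_3(F_p^3) ≥ p^2`, so that `λ_{3,p} ≥ p^(2/3)`
-/

set_option autoImplicit false

namespace Pool.Agent.Run7.h918.SP.Ap

open Finset Filter Topology Run7.h125.Sat
open Pool.Agent.H523R2.AP (APFree)
open Pool.Agent.Results.MP_b30443_co

variable {p : ℕ} [hp : Fact p.Prime]

theorem r_three (hp3 : 3 ≤ p) : p ^ 2 ≤ Run7.h125.Sat.r p (w p) 3 := by
  classical
  have hchar : ringChar (ZMod p) ≠ 2 := by
    rw [ZMod.ringChar_zmod_n]; omega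
  obtain ⟨g, hg⟩ := FiniteField.exists_nonsquare hchar
  have h2 : (2 : ZMod p) ≠ 0 := by
    intro h
    have h3 : ((2 : ℕ) : ZMod p) = 0 := by exact_mod_cast h
    rw [ZMod.natCast_eq_zero_iff] at h3
    have := Nat.le_of_dvd (by norm_num) h3
    omega
  set A : Finset (Fin 3 → ZMod p) := univ.filter fun u => u 2 = u 0 ^ 2 - g * u 1 ^ 2 with hA
  have hfree : Free (p := p) (w p) A := by
    rw [free_iff]
    intro x y hy h
    have e0 := (mem_filter.1 (h 0 (by norm_num))).2
    have e1 := (mem_filter.1 (h 1 (by norm_num))).2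
    have e2 := (mem_filter.1 (h 2 (by norm_num))).2
    simp only [zero_smul, one_smul, Pi.add_apply, two_smul, Pi.zero_apply, add_zero] at e0 e1 e2
    have h3 : 2 * (y 0 ^ 2 - g * y 1 ^ 2) = 0 := by linear_combination -e2 + 2 * e1 - e0
    have h4 : y 0 ^ 2 = g * y 1 ^ 2 := by
      rcases mul_eq_zero.1 h3 with h | h
      · exact absurd h h2
      · exact sub_eq_zero.1 h
    have h5 : y 1 = 0 := by
      by_contra h6
      apply hg
      refine ⟨y 0 / y 1, ?_⟩
      field_simp
      rw [h4]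
    have h6 : y 0 = 0 := by
      rw [h5] at h4
      simpa using h4
    have h7 : y 2 = 0 := by
      rw [h5, h6] at e1
      simp only [add_zero] at e1
      rw [← e0] at e1
      simpa using e1
    apply hy
    funext i
    fin_cases i
    · exact h6
    · exact h5
    · exact h7
  have hcard : p ^ 2 ≤ A.card := by
    have h3 : (univ : Finset (ZMod p × ZMod p)).card ≤ A.card := by
      apply card_le_card_of_injOn (fun q => ![q.1, q.2, q.1 ^ 2 - g * q.2 ^ 2])
      · rintro ⟨a, b⟩ _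
        rw [mem_coe, hA, mem_filter]
        refine ⟨mem_univ _, ?_⟩
        simp
      · rintro ⟨a, b⟩ _ ⟨a', b'⟩ _ h
        have e0 := congrFun h 0
        have e1 := congrFun h 1
        simp at e0 e1
        exact Prod.ext e0 e1
    rw [card_univ, Fintype.card_prod, ZMod.card] at h3
    rw [pow_two]
    exact h3
  exact hcard.trans (le_r _ hfree)

theorem two_thirds (hp3 : 3 ≤ p) {L α γ : ℝ} (hg : Growth p (w p) L α γ) : 2 / 3 ≤ α := by
  have hp1 : (1 : ℝ) < p := by exact_mod_cast hp.out.one_lt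
  have h1 := hg.le' 3
  have h2 : ((p : ℝ) ^ 2) ≤ Run7.h125.Sat.r p (w p) 3 := by exact_mod_cast r_three hp3
  have h3 : (p : ℝ) ^ (2 : ℝ) ≤ (p : ℝ) ^ (α * ((3 : ℕ) : ℝ)) := by
    rw [Real.rpow_two]
    exact h2.trans h1
  rw [Real.rpow_le_rpow_left_iff hp1] at h3
  push_cast at h3
  linarith

end Pool.Agent.Run7.h918.SP.Ap
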