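import Pool.Agent.Run7.h918.SP.Main
import Pool.Agent.Results.MP_b30443_co.NotAttained

/-!
# Three-term progressions in `F_p^n` as copies of a three-point configuration

(The translation follows the file `SharpSupersaturation` of helper125.)
-/

set_option autoImplicit false

namespace Pool.Agent.Run7.h918.SP.Ap

open Finset Filter Topology Run7.h125.Sat
open Pool.Agent.H523R2.AP (APFree)
open Pool.Agent.Results.MP_b30443_co

variable {p : ℕ} [hp : Fact p.Prime]

/-- the configuration -/
def w (p : ℕ) : Fin 3 → ZMod p := fun j => ((j : ℕ) : ZMod p)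

theorem w_inj (hp3 : 3 ≤ p) : Function.Injective (w p) := by
  intro i j h
  unfold w at h
  rw [ZMod.natCast_eq_natCast_iff'] at h
  rw [Nat.mod_eq_of_lt (by omega), Nat.mod_eq_of_lt (by omega)] at h
  exact Fin.ext h

theorem pt_eq {n : ℕ} (x y : Fin n → ZMod p) (j : Fin 3) :
    pt (w p) x y j = x + (j : ℕ) • y := by
  funext i
  simp [pt_apply, w, mul_comm]

theorem free_iff {n : ℕ} (A : Finset (Fin n → ZMod p)) :
    Free (p := p) (w p) A ↔ APFree 3 A := by
  have all_iff : ∀ x y : Fin n → ZMod p,
      (∀ j, pt (w p) x y j ∈ A) ↔ ∀ j < 3, x + j • y ∈ A := by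
    intro x y
    constructor
    · intro h j hj
      have := h ⟨j, hj⟩
      rwa [pt_eq] at this
    · intro h j
      rw [pt_eq]
      exact h j j.2
  constructor
  · intro h x y hy hh
    exact hy (h x y ((all_iff x y).2 hh))
  · intro h x y hh
    by_contra hy
    exact h x y hy ((all_iff x y).1 hh)

theorem r_eq (n : ℕ) : NotAttained.r 3 p n = Run7.h125.Sat.r p (w p) n := by
  rw [NotAttained.r, Run7.h125.Sat.r]
  simp_rw [free_iff]

theorem gamma {L α γ : ℝ} (hg : Growth p (w p) L α γ) : γ = 1 := by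
  have hp1 : (1 : ℝ) < p := by exact_mod_cast hp.out.one_lt
  have h := hg.hG
  rw [ZMod.card] at h
  have h2 : (p : ℝ) ^ (1 : ℝ) = (p : ℝ) ^ γ := by rw [Real.rpow_one]; exact h
  exact ((Real.rpow_right_inj (by linarith) (by linarith)).1 h2).symm

end Pool.Agent.Run7.h918.SP.Ap
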