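import Mathlib

/-!
# Random subsets of a finite set
-/

set_option autoImplicit false

namespace Pool.Agent.Run7.h918.SP

open Finset

variable {V : Type} [DecidableEq V]

theorem small_card (U : Finset V) (b : ℕ) :
    (U.powerset.filter fun T => T.card ≤ b).card ≤ (U.card + 1) ^ b := by
  classical
  induction b with
  | zero =>
    rw [pow_zero, card_le_one]
    intro S hS T hT
    rw [mem_filter] at hS hT
    rw [card_eq_zero.1 (Nat.le_zero.1 hS.2), card_eq_zero.1 (Nat.le_zero.1 hT.2)]
  | succ b ih =>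
    have h : (U.powerset.filter fun T => T.card ≤ b + 1) ⊆
        ((insertNone U) ×ˢ (U.powerset.filter fun T => T.card ≤ b)).image
          (fun q => q.1.elim q.2 fun a => insert a q.2) := by
      intro T hT
      rw [mem_filter, mem_powerset] at hT
      rw [mem_image]
      rcases T.eq_empty_or_nonempty with h0 | ⟨a, ha⟩
      · refine ⟨(none, ∅), ?_, by simp [h0]⟩
        rw [mem_product, mem_filter, mem_powerset]
        exact ⟨by simp, empty_subset _, by simp⟩
      · refine ⟨(some a, T.erase a), ?_, ?_⟩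
        · rw [mem_product, mem_filter, mem_powerset]
          refine ⟨by simpa using hT.1 ha, (erase_subset _ _).trans hT.1, ?_⟩
          simp only
          rw [card_erase_of_mem ha]
          omega
        · simp only [Option.elim_some]
          rw [insert_erase ha]
    calc (U.powerset.filter fun T => T.card ≤ b + 1).card
        ≤ (((insertNone U) ×ˢ (U.powerset.filter fun T => T.card ≤ b)).image
          (fun q => q.1.elim q.2 fun a => insert a q.2)).card := card_le_card h
      _ ≤ ((insertNone U) ×ˢ (U.powerset.filter fun T => T.card ≤ b)).card :=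
          card_image_le
      _ ≤ (U.card + 1) * (U.card + 1) ^ b := by
          rw [card_product, card_insertNone]
          exact Nat.mul_le_mul_left _ ih
      _ = (U.card + 1) ^ (b + 1) := by ring

/-- the probability of the set `S` if the elements of `U` are chosen independently with
probability `q` -/
noncomputable def wt (U : Finset V) (q : ℝ) (S : Finset V) : ℝ :=
  q ^ S.card * (1 - q) ^ (U.card - S.card)

theorem wt_nonneg {U : Finset V} {q : ℝ} (h0 : 0 ≤ q) (h1 : q ≤ 1) (S : Finset V) :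
    0 ≤ wt U q S := by
  unfold wt
  have : 0 ≤ 1 - q := by linarith
  positivity

/-- the generating function of the number of chosen elements of `C` -/
theorem gen {U C : Finset V} (hC : C ⊆ U) (q z : ℝ) :
    ∑ S ∈ U.powerset, wt U q S * z ^ (S ∩ C).card = (q * z + (1 - q)) ^ C.card := by
  have h := prod_add (fun i => q * (if i ∈ C then z else 1)) (fun _ => 1 - q) U
  have h1 : ∏ i ∈ U, (q * (if i ∈ C then z else 1) + (1 - q)) = (q * z + (1 - q)) ^ C.card := by
    rw [← prod_sdiff hC]
    have e1 : ∏ i ∈ U \ C, (q * (if i ∈ C then z else 1) + (1 - q)) = 1 := by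
      apply prod_eq_one
      intro i hi
      rw [if_neg (mem_sdiff.1 hi).2]
      ring
    have e2 : ∏ i ∈ C, (q * (if i ∈ C then z else 1) + (1 - q)) = (q * z + (1 - q)) ^ C.card := by
      rw [← prod_const]
      apply prod_congr rfl
      intro i hi
      rw [if_pos hi]
    rw [e1, e2, one_mul]
  rw [← h1, h]
  apply sum_congr rfl
  intro S hS
  rw [mem_powerset] at hS
  rw [prod_const, card_sdiff_of_subset hS, prod_mul_distrib, prod_const]
  have e3 : ∏ i ∈ S, (if i ∈ C then z else (1 : ℝ)) = z ^ (S ∩ C).card := by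
    rw [prod_ite, prod_const, prod_const_one, mul_one, filter_mem_eq_inter]
  rw [e3]
  unfold wt
  ring

theorem total (U : Finset V) (q : ℝ) : ∑ S ∈ U.powerset, wt U q S = 1 := by
  have h := gen (empty_subset U) q 1
  simpa using h

/-- the probability that `T` is chosen -/
theorem contain {U T : Finset V} (hT : T ⊆ U) (q : ℝ) :
    ∑ S ∈ U.powerset.filter (fun S => T ⊆ S), wt U q S = q ^ T.card := by
  have h := prod_add (fun _ => q) (fun i => if i ∈ T then 0 else 1 - q) U
  have h1 : ∏ i ∈ U, (q + (if i ∈ T then 0 else 1 - q)) = q ^ T.card := by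
    rw [← prod_sdiff hT]
    have e1 : ∏ i ∈ U \ T, (q + (if i ∈ T then 0 else 1 - q)) = 1 := by
      apply prod_eq_one
      intro i hi
      rw [if_neg (mem_sdiff.1 hi).2]
      ring
    have e2 : ∏ i ∈ T, (q + (if i ∈ T then 0 else 1 - q)) = q ^ T.card := by
      rw [← prod_const]
      apply prod_congr rfl
      intro i hi
      rw [if_pos hi, add_zero]
    rw [e1, e2, one_mul]
  rw [← h1, h, sum_filter]
  apply sum_congr rfl
  intro S hS
  rw [mem_powerset] at hS
  by_cases hTS : T ⊆ S
  · rw [if_pos hTS, prod_const]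
    have e3 : ∏ i ∈ U \ S, (if i ∈ T then 0 else 1 - q) = (1 - q) ^ (U \ S).card := by
      rw [← prod_const]
      apply prod_congr rfl
      intro i hi
      rw [if_neg fun h => (mem_sdiff.1 hi).2 (hTS h)]
    rw [e3, card_sdiff_of_subset hS]
    rfl
  · rw [if_neg hTS]
    obtain ⟨i, hi, hiS⟩ := not_subset.1 hTS
    have e3 : ∏ i ∈ U \ S, (if i ∈ T then 0 else 1 - q) = 0 :=
      prod_eq_zero (mem_sdiff.2 ⟨hT hi, hiS⟩) (by rw [if_pos hi])
    rw [e3, mul_zero]

/-- upper tail -/
theorem upper_tail {U C : Finset V} (hC : C ⊆ U) {q lam a R : ℝ} (h0 : 0 ≤ q) (h1 : q ≤ 1)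
    (hl : 0 ≤ lam) (hl1 : lam ≤ 1) (hR : (C.card : ℝ) ≤ R) :
    ∑ S ∈ U.powerset.filter (fun S => a ≤ ((S ∩ C).card : ℝ)), wt U q S ≤
      Real.exp (q * (lam + lam ^ 2) * R - lam * a) := by
  have h2 : ∑ S ∈ U.powerset.filter (fun S => a ≤ ((S ∩ C).card : ℝ)), wt U q S ≤
      ∑ S ∈ U.powerset.filter (fun S => a ≤ ((S ∩ C).card : ℝ)),
        Real.exp (-(lam * a)) * (wt U q S * Real.exp lam ^ (S ∩ C).card) := by
    refine sum_le_sum fun S hS => ?_
    rw [mem_filter] at hS
    have h3 : 1 ≤ Real.exp (-(lam * a)) * Real.exp lam ^ (S ∩ C).card := by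
      rw [← Real.exp_nat_mul, ← Real.exp_add, Real.one_le_exp_iff]
      have := mul_le_mul_of_nonneg_left hS.2 hl
      linarith
    have h4 := wt_nonneg (U := U) h0 h1 S
    calc wt U q S = wt U q S * 1 := (mul_one _).symm
      _ ≤ wt U q S * (Real.exp (-(lam * a)) * Real.exp lam ^ (S ∩ C).card) :=
          mul_le_mul_of_nonneg_left h3 h4
      _ = _ := by ring
  refine h2.trans ?_
  have h5 : ∑ S ∈ U.powerset.filter (fun S => a ≤ ((S ∩ C).card : ℝ)),
        Real.exp (-(lam * a)) * (wt U q S * Real.exp lam ^ (S ∩ C).card) ≤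
      ∑ S ∈ U.powerset, Real.exp (-(lam * a)) * (wt U q S * Real.exp lam ^ (S ∩ C).card) := by
    refine sum_le_sum_of_subset_of_nonneg (filter_subset _ _) fun S _ _ => ?_
    have h4 := wt_nonneg (U := U) h0 h1 S
    positivity
  refine h5.trans ?_
  rw [← mul_sum, gen hC]
  have h6 : q * Real.exp lam + (1 - q) ≤ Real.exp (q * (lam + lam ^ 2)) := by
    have h7 : Real.exp lam ≤ 1 + (lam + lam ^ 2) := by
      have := Real.abs_exp_sub_one_sub_id_le (x := lam) (by rw [abs_of_nonneg hl]; exact hl1)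
      have := (abs_le.1 this).2
      linarith
    have h8 : q * Real.exp lam + (1 - q) ≤ q * (lam + lam ^ 2) + 1 := by nlinarith
    exact h8.trans (Real.add_one_le_exp _)
  have h9 : 0 ≤ q * Real.exp lam + (1 - q) := by
    have : 0 ≤ 1 - q := by linarith
    positivity
  calc Real.exp (-(lam * a)) * (q * Real.exp lam + (1 - q)) ^ C.card
      ≤ Real.exp (-(lam * a)) * Real.exp (q * (lam + lam ^ 2)) ^ C.card :=
        mul_le_mul_of_nonneg_left (pow_le_pow_left₀ h9 h6 _) (Real.exp_pos _).le
    _ = Real.exp (-(lam * a) + C.card * (q * (lam + lam ^ 2))) := by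
        rw [← Real.exp_nat_mul, ← Real.exp_add]
    _ ≤ _ := by
        apply Real.exp_le_exp.2
        have : (C.card : ℝ) * (q * (lam + lam ^ 2)) ≤ R * (q * (lam + lam ^ 2)) :=
          mul_le_mul_of_nonneg_right hR (by positivity)
        linarith

/-- lower tail -/
theorem lower_tail {U C : Finset V} (hC : C ⊆ U) {q lam a : ℝ} (h0 : 0 ≤ q) (h1 : q ≤ 1)
    (hl : 0 ≤ lam) (hl1 : lam ≤ 1) :
    ∑ S ∈ U.powerset.filter (fun S => ((S ∩ C).card : ℝ) ≤ a), wt U q S ≤
      Real.exp (lam * a - q * (lam - lam ^ 2) * C.card) := by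
  have h2 : ∑ S ∈ U.powerset.filter (fun S => ((S ∩ C).card : ℝ) ≤ a), wt U q S ≤
      ∑ S ∈ U.powerset.filter (fun S => ((S ∩ C).card : ℝ) ≤ a),
        Real.exp (lam * a) * (wt U q S * Real.exp (-lam) ^ (S ∩ C).card) := by
    refine sum_le_sum fun S hS => ?_
    rw [mem_filter] at hS
    have h3 : 1 ≤ Real.exp (lam * a) * Real.exp (-lam) ^ (S ∩ C).card := by
      rw [← Real.exp_nat_mul, ← Real.exp_add, Real.one_le_exp_iff]
      have := mul_le_mul_of_nonneg_left hS.2 hl
      linarith
    have h4 := wt_nonneg (U := U) h0 h1 S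
    calc wt U q S = wt U q S * 1 := (mul_one _).symm
      _ ≤ wt U q S * (Real.exp (lam * a) * Real.exp (-lam) ^ (S ∩ C).card) :=
          mul_le_mul_of_nonneg_left h3 h4
      _ = _ := by ring
  refine h2.trans ?_
  have h5 : ∑ S ∈ U.powerset.filter (fun S => ((S ∩ C).card : ℝ) ≤ a),
        Real.exp (lam * a) * (wt U q S * Real.exp (-lam) ^ (S ∩ C).card) ≤
      ∑ S ∈ U.powerset, Real.exp (lam * a) * (wt U q S * Real.exp (-lam) ^ (S ∩ C).card) := by
    refine sum_le_sum_of_subset_of_nonneg (filter_subset _ _) fun S _ _ => ?_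
    have h4 := wt_nonneg (U := U) h0 h1 S
    positivity
  refine h5.trans ?_
  rw [← mul_sum, gen hC]
  have h6 : q * Real.exp (-lam) + (1 - q) ≤ Real.exp (-(q * (lam - lam ^ 2))) := by
    have h7 : Real.exp (-lam) ≤ 1 - (lam - lam ^ 2) := by
      have := Real.abs_exp_sub_one_sub_id_le (x := -lam) (by rw [abs_neg, abs_of_nonneg hl]; exact hl1)
      have := (abs_le.1 this).2
      nlinarith
    have h8 : q * Real.exp (-lam) + (1 - q) ≤ -(q * (lam - lam ^ 2)) + 1 := by nlinarith
    exact h8.trans (Real.add_one_le_exp _)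
  have h9 : 0 ≤ q * Real.exp (-lam) + (1 - q) := by
    have : 0 ≤ 1 - q := by linarith
    positivity
  calc Real.exp (lam * a) * (q * Real.exp (-lam) + (1 - q)) ^ C.card
      ≤ Real.exp (lam * a) * Real.exp (-(q * (lam - lam ^ 2))) ^ C.card :=
        mul_le_mul_of_nonneg_left (pow_le_pow_left₀ h9 h6 _) (Real.exp_pos _).le
    _ = Real.exp (lam * a + C.card * (-(q * (lam - lam ^ 2)))) := by
        rw [← Real.exp_nat_mul, ← Real.exp_add]
    _ ≤ _ := by
        apply Real.exp_le_exp.2
        linarith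

/-- the union bound -/
theorem union {U : Finset V} {q : ℝ} (h0 : 0 ≤ q) (h1 : q ≤ 1) {P Q R : Finset V → Prop}
    [DecidablePred P] [DecidablePred Q] [DecidablePred R] (h : ∀ S ⊆ U, P S → Q S ∨ R S) :
    ∑ S ∈ U.powerset.filter P, wt U q S ≤
      ∑ S ∈ U.powerset.filter Q, wt U q S + ∑ S ∈ U.powerset.filter R, wt U q S := by
  rw [sum_filter, sum_filter, sum_filter, ← sum_add_distrib]
  refine sum_le_sum fun S hS => ?_
  have hw := wt_nonneg (U := U) h0 h1 S
  by_cases hP : P S
  · rw [if_pos hP]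
    rcases h S (mem_powerset.1 hS) hP with hQ | hR
    · rw [if_pos hQ]
      split_ifs <;> linarith
    · rw [if_pos hR]
      split_ifs <;> linarith
  · rw [if_neg hP]
    split_ifs <;> linarith

/-- Markov's inequality for the number of configurations -/
theorem markov {U : Finset V} {q t : ℝ} (h0 : 0 ≤ q) (h1 : q ≤ 1) (ht : 0 < t) {α : Type}
    (I : Finset α) (T : α → Finset V) (hT : ∀ i ∈ I, T i ⊆ U ∧ (T i).card = 3)
    [∀ S : Finset V, DecidablePred fun i => T i ⊆ S] :
    ∑ S ∈ U.powerset.filter (fun S => t ≤ ((I.filter fun i => T i ⊆ S).card : ℝ)), wt U q S ≤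
      q ^ 3 * I.card / t := by
  rw [le_div_iff₀ ht, sum_mul]
  calc ∑ S ∈ U.powerset.filter (fun S => t ≤ ((I.filter fun i => T i ⊆ S).card : ℝ)), wt U q S * t
      ≤ ∑ S ∈ U.powerset.filter (fun S => t ≤ ((I.filter fun i => T i ⊆ S).card : ℝ)),
          wt U q S * ((I.filter fun i => T i ⊆ S).card : ℝ) :=
        sum_le_sum fun S hS => mul_le_mul_of_nonneg_left (mem_filter.1 hS).2
          (wt_nonneg h0 h1 S)
    _ ≤ ∑ S ∈ U.powerset, wt U q S * ((I.filter fun i => T i ⊆ S).card : ℝ) :=
        sum_le_sum_of_subset_of_nonneg (filter_subset _ _) fun S _ _ =>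
          mul_nonneg (wt_nonneg h0 h1 S) (Nat.cast_nonneg _)
    _ = ∑ S ∈ U.powerset, ∑ i ∈ I, if T i ⊆ S then wt U q S else 0 := by
        refine sum_congr rfl fun S _ => ?_
        rw [← sum_filter, sum_const, nsmul_eq_mul, mul_comm]
    _ = ∑ i ∈ I, ∑ S ∈ U.powerset.filter (fun S => T i ⊆ S), wt U q S := by
        rw [sum_comm]
        exact sum_congr rfl fun i _ => (sum_filter _ _).symm
    _ = ∑ i ∈ I, q ^ 3 := sum_congr rfl fun i hi => by
        have h := contain (hT i hi).1 q
        rw [(hT i hi).2] at h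
        convert h
    _ = q ^ 3 * I.card := by rw [sum_const, nsmul_eq_mul, mul_comm]

end Pool.Agent.Run7.h918.SP
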