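import Pool.Agent.Run7.h918.SP.Rel
import Pool.Agent.Run7.h918.SP.Rnd

/-!
# Containers for the sets without copies of a three-point configuration
-/

set_option autoImplicit false

namespace Pool.Agent.Run7.h918.SP

open Finset Run7.h125.Sat

variable {p : ℕ} [hp : Fact p.Prime] {Γ : Type} [AddCommGroup Γ] [Module (ZMod p) Γ]
  [Fintype Γ] [DecidableEq Γ]

/-- supersaturation -/
theorem sup {v : Fin 3 → Γ} {e : ℝ} (he : 0 < e)
    (h : ∀ n : ℕ, (r p v n : ℝ) ≤ ((Fintype.card Γ : ℝ) * (p : ℝ) ^ (-e)) ^ n) {n : ℕ}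
    (W : Finset (Fin n → Γ)) {y : ℝ}
    (hW : (Fintype.card Γ : ℝ) ^ n * (p : ℝ) ^ (-(y * n)) ≤ W.card) :
    ((p : ℝ) ^ ((1 - y / e) * n) - 1) * W.card ≤ ((ntc (p := p) v W).card : ℝ) := by
  have hp1 : (1 : ℝ) < p := by exact_mod_cast hp.out.one_lt
  have hp0 : (0 : ℝ) < p := by linarith
  have h1 := supersat' v e he h W
  rw [card_cop] at h1
  have hG : (0 : ℝ) < (Fintype.card Γ : ℝ) := by exact_mod_cast (Fintype.card_pos (α := Γ))
  obtain ⟨N, hN⟩ : ∃ N : ℝ, N = (Fintype.card Γ : ℝ) ^ n := ⟨_, rfl⟩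
  have hN0 : 0 < N := by rw [hN]; positivity
  rw [← hN] at hW h1
  have hy0 : 0 < (p : ℝ) ^ (-(y * n)) := by positivity
  have hw0 : (0 : ℝ) < W.card := lt_of_lt_of_le (by positivity) hW
  have h2 : (p : ℝ) ^ (-(y * n)) ≤ (W.card : ℝ) / N := by
    rw [le_div_iff₀ hN0]; linarith
  have h3 : (p : ℝ) ^ (-(y / e * n)) ≤ ((W.card : ℝ) / N) ^ (1 / e) := by
    have h4 := Real.rpow_le_rpow hy0.le h2 (show (0 : ℝ) ≤ 1 / e by positivity)
    rw [← Real.rpow_mul hp0.le] at h4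
    refine le_trans (le_of_eq ?_) h4
    congr 1
    ring
  have h5 : (W.card : ℝ) * (p : ℝ) ^ ((1 - y / e) * n) ≤
      ((W.card : ℝ) / N) ^ (1 + 1 / e) * ((Fintype.card Γ : ℝ) * p) ^ n := by
    rw [Real.rpow_add (by positivity), Real.rpow_one, mul_pow, ← hN]
    have e1 : (p : ℝ) ^ ((1 - y / e) * n) = (p : ℝ) ^ (-(y / e * n)) * (p : ℝ) ^ n := by
      rw [← Real.rpow_natCast, ← Real.rpow_add hp0]
      congr 1
      ring
    rw [e1]
    have e2 : (W.card : ℝ) / N * ((W.card : ℝ) / N) ^ (1 / e) * (N * (p : ℝ) ^ n) =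
        W.card * (((W.card : ℝ) / N) ^ (1 / e) * (p : ℝ) ^ n) := by
      field_simp
    rw [e2]
    apply mul_le_mul_of_nonneg_left _ hw0.le
    exact mul_le_mul_of_nonneg_right h3 (by positivity)
  push_cast at h1
  linarith

/-- the thresholds -/
noncomputable def th (Γ : Type) [Fintype Γ] (p : ℕ) (δ : ℝ) (n i : ℕ) : ℝ :=
  (Fintype.card Γ : ℝ) ^ n * (p : ℝ) ^ (-((i : ℝ) * δ * n))

theorem th_nonneg (p : ℕ) (δ : ℝ) (n i : ℕ) : 0 ≤ th Γ p δ n i := by
  unfold th; positivity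

theorem phases {v : Fin 3 → Γ} (hv : Function.Injective v) {e : ℝ} (he : 0 < e)
    (h : ∀ n : ℕ, (r p v n : ℝ) ≤ ((Fintype.card Γ : ℝ) * (p : ℝ) ^ (-e)) ^ n) {n J : ℕ} {δ t : ℝ}
    (ht : 0 ≤ t)
    (hD : ∀ i, i + 1 ≤ J → ∃ D : ℝ, 1 ≤ D ∧
      9 * D ≤ (p : ℝ) ^ ((1 - (((i + 1 : ℕ) : ℝ) * δ) / e) * n) - 1 ∧
      6 * th Γ p δ n i / √D ≤ t) :
    ∀ j ≤ J, ∀ W : Finset (Fin n → Γ), (W.card : ℝ) ≤ th Γ p δ n (J - j) →
      Cov (H (p := p) v) (th Γ p δ n J) univ W (fun _ _ => False) (j * t) := by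
  intro j
  induction j with
  | zero =>
    intro _ W hc
    refine ⟨fun _ => W, fun _ => ⟨subset_univ _, ?_⟩, fun S hS _ _ => ⟨∅, empty_subset _, by simp, ?_⟩⟩
    · simpa using hc
    · exact hS.trans subset_union_right
  | succ j ih =>
    intro hj W hc
    obtain ⟨i, hi⟩ : ∃ i, i + 1 = J - j := ⟨J - (j + 1), by omega⟩
    have hi2 : J - (j + 1) = i := by omega
    rw [hi2] at hc
    obtain ⟨D, h1, h2, h3⟩ := hD i (by omega)
    have h4 := phase (H := H (p := p) v) (H_swap v) (H_cyc v) (H_irr hv) (U₀ := univ)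
      (H_cod hv univ) (M := th Γ p δ n J)
      (D := D) (m₀ := th Γ p δ n (i + 1)) (b := j * t)
      (th_nonneg _ _ _ _) h1 (by positivity) (th_nonneg _ _ _ _)
      (fun W _ hlt => by
        have h5 := sup (p := p) he h W (y := ((i + 1 : ℕ) : ℝ) * δ) hlt.le
        have h6 : ((ntc (p := p) v W).card : ℝ) ≤ ((tr (H (p := p) v) W).card : ℝ) := by
          exact_mod_cast ntc_le_tr hv W
        refine le_trans ?_ (h5.trans h6)
        exact mul_le_mul_of_nonneg_right h2 (Nat.cast_nonneg _))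
      (fun W _ hle => ih (by omega) W (by rw [← hi]; exact hle)) W (subset_univ _)
    refine h4.mono ?_
    have h5 : 6 * (W.card : ℝ) / √D ≤ t := by
      refine le_trans ?_ h3
      apply div_le_div_of_nonneg_right _ (Real.sqrt_nonneg _)
      linarith
    push_cast
    linarith

/-- the containers -/
theorem cont {v : Fin 3 → Γ} (hv : Function.Injective v) {e : ℝ} (he : 0 < e) (he2 : e ≤ 1 / 2)
    (h : ∀ n : ℕ, (r p v n : ℝ) ≤ ((Fintype.card Γ : ℝ) * (p : ℝ) ^ (-e)) ^ n) {n J : ℕ}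
    {x ε Y : ℝ} (hx : 0 ≤ x) (hε : 0 < ε) (hY : Y = e * (1 - 2 * x) - ε) (hY0 : 0 < Y)
    (hJ : 1 ≤ J) (hJ2 : Y / J ≤ ε / 2) (hn : 10 ≤ (p : ℝ) ^ (ε / e * n)) :
    Cov (H (p := p) v) ((Fintype.card Γ : ℝ) ^ n * (p : ℝ) ^ (-(Y * n)))
      (univ : Finset (Fin n → Γ)) univ (fun _ _ => False)
      (J * (24 * ((Fintype.card Γ : ℝ) ^ n * (p : ℝ) ^ (-((x + Y + ε / (4 * e)) * n))))) := by
  have hp1 : (1 : ℝ) < p := by exact_mod_cast hp.out.one_lt
  have hp0 : (0 : ℝ) < p := by linarith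
  have hJ0 : (0 : ℝ) < J := by exact_mod_cast hJ
  obtain ⟨δ, hδ⟩ : ∃ δ : ℝ, δ = Y / J := ⟨_, rfl⟩
  have hδJ : (J : ℝ) * δ = Y := by rw [hδ]; field_simp
  have hδ0 : 0 < δ := by rw [hδ]; positivity
  rw [← hδ] at hJ2
  have hn0 : (0 : ℝ) ≤ n := Nat.cast_nonneg _
  have hM : th Γ p δ n J = (Fintype.card Γ : ℝ) ^ n * (p : ℝ) ^ (-(Y * n)) := by
    unfold th; rw [hδJ]
  rw [← hM]
  have hmain := phases (p := p) hv he h (n := n) (J := J) (δ := δ)
    (t := 24 * ((Fintype.card Γ : ℝ) ^ n * (p : ℝ) ^ (-((x + Y + ε / (4 * e)) * n))))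
    (by positivity) (by
      intro i hi
      obtain ⟨w, hw⟩ : ∃ w : ℝ, w = ((i + 1 : ℕ) : ℝ) * δ := ⟨_, rfl⟩
      have hwY : w ≤ Y := by
        rw [hw, ← hδJ]
        exact mul_le_mul_of_nonneg_right (by exact_mod_cast hi) hδ0.le
      rw [← hw]
      obtain ⟨u, hu⟩ : ∃ u : ℝ, u = (p : ℝ) ^ ((1 - w / e) * n) := ⟨_, rfl⟩
      have hexp : ε / e ≤ 1 - w / e := by
        rw [div_le_iff₀ he, sub_mul, one_mul, div_mul_cancel₀ _ he.ne']
        have : 0 ≤ e * (2 * x) := by positivity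
        nlinarith
      have hu10 : 10 ≤ u := by
        rw [hu]
        refine hn.trans (Real.rpow_le_rpow_of_exponent_le hp1.le ?_)
        exact mul_le_mul_of_nonneg_right hexp hn0
      refine ⟨u / 10, by linarith, by rw [← hu]; linarith, ?_⟩
      have hu0 : 0 < u := by linarith
      obtain ⟨a, ha⟩ : ∃ a : ℝ, a = (p : ℝ) ^ ((1 - w / e) / 2 * n) := ⟨_, rfl⟩
      have ha0 : 0 < a := by rw [ha]; positivity
      have hau : a ^ 2 = u := by
        rw [ha, hu, ← Real.rpow_mul_natCast hp0.le]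
        congr 1
        push_cast
        ring
      have hs : a / 4 ≤ √(u / 10) := by
        apply Real.le_sqrt_of_sq_le
        rw [div_pow, hau]
        linarith
      have hs0 : 0 < √(u / 10) := lt_of_lt_of_le (by positivity) hs
      rw [div_le_iff₀ hs0]
      refine le_trans ?_ (mul_le_mul_of_nonneg_left hs (by positivity))
      have hkey : (p : ℝ) ^ (-((i : ℝ) * δ * n)) ≤
          (p : ℝ) ^ (-((x + Y + ε / (4 * e)) * n)) * a := by
        rw [ha, ← Real.rpow_add hp0]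
        apply Real.rpow_le_rpow_of_exponent_le hp1.le
        have hi' : (i : ℝ) * δ = w - δ := by rw [hw]; push_cast; ring
        rw [hi']
        have e1 : -((x + Y + ε / (4 * e)) * n) + (1 - w / e) / 2 * n =
            (-(x + Y + ε / (4 * e)) + (1 - w / e) / 2) * n := by ring
        have e2 : -((w - δ) * n) = (-(w - δ)) * n := by ring
        rw [e1, e2]
        apply mul_le_mul_of_nonneg_right _ hn0
        -- -w + δ ≤ -(x + Y + ε/(4e)) + 1/2 - w/(2e)
        have h1 : w * (1 / (2 * e) - 1) ≤ Y * (1 / (2 * e) - 1) := by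
          apply mul_le_mul_of_nonneg_right hwY
          have : 1 ≤ 1 / (2 * e) := by
            rw [le_div_iff₀ (by positivity)]; linarith
          linarith
        have h2 : Y / (2 * e) = 1 / 2 - x - ε / (2 * e) := by
          rw [hY]; field_simp
        have h3 : ε / 2 ≤ ε / (4 * e) := by
          apply div_le_div_of_nonneg_left hε.le (by positivity)
          linarith
        have h4 : ε / (2 * e) = 2 * (ε / (4 * e)) := by field_simp; ring
        have h5 : w * (1 / (2 * e) - 1) = w / e / 2 - w := by field_simp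
        have h6 : Y * (1 / (2 * e) - 1) = Y / (2 * e) - Y := by ring
        rw [h5, h6, h2, h4] at h1
        linarith
      unfold th
      calc 6 * ((Fintype.card Γ : ℝ) ^ n * (p : ℝ) ^ (-((i : ℝ) * δ * n)))
          ≤ 6 * ((Fintype.card Γ : ℝ) ^ n * ((p : ℝ) ^ (-((x + Y + ε / (4 * e)) * n)) * a)) := by
            apply mul_le_mul_of_nonneg_left _ (by norm_num)
            exact mul_le_mul_of_nonneg_left hkey (by positivity)
        _ = _ := by ring)
    J le_rfl univ (by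
      rw [Nat.sub_self]
      unfold th
      rw [card_univ, Fintype.card_fun, Fintype.card_fin]
      simp)
  exact hmain

open Classical in
/-- random sets and containers -/
theorem prob {n : ℕ} {v : Fin 3 → Γ} {M b q : ℝ} (h0 : 0 ≤ q) (h1 : q ≤ 1) (hM : 0 ≤ M)
    (hc : Cov (H (p := p) v) M (univ : Finset (Fin n → Γ)) univ (fun _ _ => False) b)
    (hb : b ≤ q * M) (hb2 : b * Real.log ((Fintype.card Γ : ℝ) ^ n + 1) ≤ q * M) :
    ∑ S ∈ (univ : Finset (Fin n → Γ)).powerset.filter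
      (fun S => ∃ A ⊆ S, Free (p := p) v A ∧ 5 * (q * M) ≤ (A.card : ℝ)), wt univ q S ≤
    Real.exp (-(q * M)) := by
  obtain ⟨F, hF1, hF2⟩ := hc
  set 𝒯 := ((univ : Finset (Fin n → Γ)).powerset.filter fun T => T.card ≤ ⌊b⌋₊) with h𝒯
  have hqM : 0 ≤ q * M := mul_nonneg h0 hM
  have hcard : ((univ : Finset (Fin n → Γ)).card : ℝ) = (Fintype.card Γ : ℝ) ^ n := by
    rw [card_univ, Fintype.card_fun, Fintype.card_fin]
    push_cast
    ring
  have h2 : ∑ S ∈ (univ : Finset (Fin n → Γ)).powerset.filter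
      (fun S => ∃ A ⊆ S, Free (p := p) v A ∧ 5 * (q * M) ≤ (A.card : ℝ)), wt univ q S ≤
      ∑ T ∈ 𝒯, ∑ S ∈ (univ : Finset (Fin n → Γ)).powerset.filter
        (fun S => 4 * (q * M) ≤ ((S ∩ F T).card : ℝ)), wt univ q S := by
    simp_rw [sum_filter]
    rw [sum_comm]
    refine sum_le_sum fun S _ => ?_
    have hw := wt_nonneg (U := (univ : Finset (Fin n → Γ))) h0 h1 S
    split_ifs with hbad
    · obtain ⟨A, hAS, hAf, hAc⟩ := hbad
      obtain ⟨T, hTA, hTb, hAT⟩ := hF2 A (subset_univ _) (free_H hAf) (fun _ _ _ _ => id)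
      have hT : T ∈ 𝒯 := by
        rw [h𝒯, mem_filter, mem_powerset]
        exact ⟨subset_univ _, Nat.le_floor hTb⟩
      have h3 : 4 * (q * M) ≤ ((S ∩ F T).card : ℝ) := by
        have h4 : A ⊆ T ∪ (S ∩ F T) := by
          intro a ha
          rcases mem_union.1 (hAT ha) with h | h
          · exact mem_union_left _ h
          · exact mem_union_right _ (mem_inter.2 ⟨hAS ha, h⟩)
        have h5 := (card_le_card h4).trans (card_union_le _ _)
        have h6 : (A.card : ℝ) ≤ T.card + (S ∩ F T).card := by exact_mod_cast h5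
        linarith
      calc wt univ q S = if 4 * (q * M) ≤ ((S ∩ F T).card : ℝ) then wt univ q S else 0 := by
            rw [if_pos h3]
        _ ≤ _ := single_le_sum (f := fun T => if 4 * (q * M) ≤ ((S ∩ F T).card : ℝ) then
            wt univ q S else 0) (fun T _ => by split_ifs <;> simp [hw]) hT
    · exact sum_nonneg fun T _ => by split_ifs <;> simp [hw]
  refine h2.trans ?_
  have h3 : ∀ T ∈ 𝒯, ∑ S ∈ (univ : Finset (Fin n → Γ)).powerset.filter
        (fun S => 4 * (q * M) ≤ ((S ∩ F T).card : ℝ)), wt univ q S ≤ Real.exp (-(2 * (q * M))) := by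
    intro T _
    have h4 := upper_tail (U := (univ : Finset (Fin n → Γ))) (subset_univ (F T)) (q := q)
      (lam := 1) (a := 4 * (q * M)) (R := M) h0 h1 (by norm_num) le_rfl (hF1 T).2
    refine h4.trans (le_of_eq ?_)
    congr 1
    ring
  refine (sum_le_sum h3).trans ?_
  rw [sum_const, nsmul_eq_mul]
  have h4 : ((𝒯.card : ℕ) : ℝ) ≤ ((Fintype.card Γ : ℝ) ^ n + 1) ^ ⌊b⌋₊ := by
    rw [← hcard]
    exact_mod_cast small_card (univ : Finset (Fin n → Γ)) ⌊b⌋₊
  have hG : (0 : ℝ) ≤ (Fintype.card Γ : ℝ) ^ n := by positivity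
  have h5 : ((Fintype.card Γ : ℝ) ^ n + 1) ^ ⌊b⌋₊ ≤ Real.exp (q * M) := by
    have hL : 0 ≤ Real.log ((Fintype.card Γ : ℝ) ^ n + 1) := Real.log_nonneg (by linarith)
    rw [← Real.exp_log (show 0 < (Fintype.card Γ : ℝ) ^ n + 1 by linarith), ← Real.exp_nat_mul]
    apply Real.exp_le_exp.2
    by_cases hb0 : 0 ≤ b
    · exact (mul_le_mul_of_nonneg_right (Nat.floor_le hb0) hL).trans hb2
    · push Not at hb0
      rw [Nat.floor_of_nonpos hb0.le]
      push_cast
      linarith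
  calc ((𝒯.card : ℕ) : ℝ) * Real.exp (-(2 * (q * M)))
      ≤ Real.exp (q * M) * Real.exp (-(2 * (q * M))) :=
        mul_le_mul_of_nonneg_right (h4.trans h5) (Real.exp_pos _).le
    _ = Real.exp (-(q * M)) := by rw [← Real.exp_add]; congr 1; ring

end Pool.Agent.Run7.h918.SP
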