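import Pool.Agent.Run7.h918.SP.Main
import Pool.Agent.Run7.h125.Sat.Corner

/-!
# Corners in `(F_2^n)^2` as copies of a three-point configuration: random sets
-/

set_option autoImplicit false

namespace Pool.Agent.Run7.h918.SP.Corn

open Finset Filter Topology Run7.h125.Sat Run7.h125.Sat.Corner
open Pool.Agent.Run7.h918.SP

theorem v_inj : Function.Injective v := by
  unfold v
  decide

theorem Pr_equiv {V V' : Type} [Fintype V] [DecidableEq V] [Fintype V'] [DecidableEq V']
    (e : V ≃ V') (q : ℝ) (P : Finset V → Prop) (P' : Finset V' → Prop) [DecidablePred P]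
    [DecidablePred P'] (h : ∀ S, P S ↔ P' (S.map e.toEmbedding)) : Pr q P = Pr q P' := by
  unfold Pr
  rw [sum_filter, sum_filter]
  refine Fintype.sum_equiv e.finsetCongr _ _ fun S => ?_
  have e1 : e.finsetCongr S = S.map e.toEmbedding := rfl
  rw [e1, card_map, Fintype.card_congr e]
  by_cases hS : P S
  · rw [if_pos hS, if_pos ((h S).1 hS)]
  · rw [if_neg hS, if_neg fun h' => hS ((h S).2 h')]

theorem ex_iff {n : ℕ} (R : Finset (Q n)) (P : ℕ → Prop) :
    (∃ A ⊆ R, NoCorner A ∧ P A.card) ↔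
      ∃ A ⊆ R.map (E n).toEmbedding, Free (p := 2) v A ∧ P A.card := by
  constructor
  · rintro ⟨A, hA, hf, hc⟩
    exact ⟨A.map (E n).toEmbedding, map_subset_map.2 hA, (free_iff A).2 hf, by rwa [card_map]⟩
  · rintro ⟨A, hA, hf, hc⟩
    have e : (A.map (E n).symm.toEmbedding).map (E n).toEmbedding = A := by
      ext w; simp
    refine ⟨A.map (E n).symm.toEmbedding, ?_, ?_, by rwa [card_map]⟩
    · rw [← map_subset_map (f := (E n).toEmbedding), e]
      exact hA
    · rw [← free_iff, e]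
      exact hf

theorem all_iff {n : ℕ} (R : Finset (Q n)) (P : ℕ → Prop) :
    (∀ A ⊆ R, NoCorner A → P A.card) ↔
      ∀ A ⊆ R.map (E n).toEmbedding, Free (p := 2) v A → P A.card := by
  have h := ex_iff R (fun t => ¬ P t)
  constructor
  · intro h1 A hA hf
    by_contra hc
    obtain ⟨B, hB, hBf, hBc⟩ := h.2 ⟨A, hA, hf, hc⟩
    exact hBc (h1 B hB hBf)
  · intro h1 A hA hf
    by_contra hc
    obtain ⟨B, hB, hBf, hBc⟩ := h.1 ⟨A, hA, hf, hc⟩
    exact hBc (h1 B hB hBf)

theorem gamma {L α γ : ℝ} (hg : Growth 2 v L α γ) : γ = 2 := by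
  have h := hg.hG
  rw [card_letters] at h
  have h2 : ((2 : ℕ) : ℝ) ^ (2 : ℝ) = ((2 : ℕ) : ℝ) ^ γ := by
    rw [← h]; norm_num
  exact ((Real.rpow_right_inj (by norm_num) (by norm_num)).1 h2).symm

end Pool.Agent.Run7.h918.SP.Corn
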