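import Pool.Agent.Run7.h918.SP.Main

/-!
# The number of sets without copies, by size
-/

set_option autoImplicit false

namespace Pool.Agent.Run7.h918.SP

open Finset Run7.h125.Sat Filter Topology

variable {p : ℕ} [hp : Fact p.Prime] {Γ : Type} [AddCommGroup Γ] [Module (ZMod p) Γ]
  [Fintype Γ] [DecidableEq Γ]

theorem fac {m : ℕ} (hm : 1 ≤ m) {K : ℝ} (hK : 0 ≤ K) :
    K ^ m / (m.factorial : ℝ) ≤ (K / m * Real.exp 1) ^ m := by
  have hm0 : (0 : ℝ) < m := by exact_mod_cast hm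
  have h1 := Real.pow_div_factorial_le_exp (m : ℝ) hm0.le m
  have e : K ^ m / (m.factorial : ℝ) = (K / m) ^ m * ((m : ℝ) ^ m / m.factorial) := by
    rw [div_pow]; field_simp
  rw [e, mul_pow, ← Real.exp_nat_mul, mul_one]
  exact mul_le_mul_of_nonneg_left h1 (by positivity)

open Classical in
/-- the number of sets of size `m` without copies -/
noncomputable def cnt (p : ℕ) [Fact p.Prime] {Γ : Type} [AddCommGroup Γ] [Module (ZMod p) Γ]
    [Fintype Γ] (v : Fin 3 → Γ) (n m : ℕ) : ℕ :=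
  ((univ : Finset (Finset (Fin n → Γ))).filter fun A => Free (p := p) v A ∧ A.card = m).card

open Classical in
/-- upper bound for one `n` -/
theorem cnt_le {n m : ℕ} {v : Fin 3 → Γ} {M b q : ℝ} (h0 : 0 < q) (h1 : q ≤ 1) (hM : 0 ≤ M)
    (hc : Cov (H (p := p) v) M (univ : Finset (Fin n → Γ)) univ (fun _ _ => False) b)
    (hb : b ≤ q * M) (hb2 : b * Real.log ((Fintype.card Γ : ℝ) ^ n + 1) ≤ q * M)
    (hm : 1 ≤ m) (hqm : q * M ≤ m) :
    (cnt p v n m : ℝ) ≤ (15 / q) ^ m := by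
  obtain ⟨F, hF1, hF2⟩ := hc
  have hm0 : (0 : ℝ) < m := by exact_mod_cast hm
  set 𝒯 := ((univ : Finset (Fin n → Γ)).powerset.filter fun T => T.card ≤ ⌊b⌋₊) with h𝒯
  have hcard : ((univ : Finset (Fin n → Γ)).card : ℝ) = (Fintype.card Γ : ℝ) ^ n := by
    rw [card_univ, Fintype.card_fun, Fintype.card_fin]
    push_cast
    ring
  have h2 : ((univ : Finset (Finset (Fin n → Γ))).filter fun A => Free (p := p) v A ∧
      A.card = m) ⊆ (𝒯.filter fun T => (T.card : ℝ) ≤ b).biUnion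
        fun T => (T ∪ F T).powersetCard m := by
    intro A hA
    rw [mem_filter] at hA
    obtain ⟨T, hTA, hTb, hAT⟩ := hF2 A (subset_univ _) (free_H hA.2.1) (fun _ _ _ _ => id)
    rw [mem_biUnion]
    refine ⟨T, ?_, mem_powersetCard.2 ⟨hAT, hA.2.2⟩⟩
    rw [mem_filter, h𝒯, mem_filter, mem_powerset]
    exact ⟨⟨subset_univ _, Nat.le_floor hTb⟩, hTb⟩
  have h3 : (cnt p v n m : ℝ) ≤ ∑ T ∈ 𝒯.filter (fun T => (T.card : ℝ) ≤ b),
      (2 * M / m * Real.exp 1) ^ m := by
    have h4 : (cnt p v n m : ℝ) ≤ ∑ T ∈ 𝒯.filter (fun T => (T.card : ℝ) ≤ b),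
        (((T ∪ F T).powersetCard m).card : ℝ) := by
      unfold cnt
      exact_mod_cast (card_le_card h2).trans card_biUnion_le
    refine h4.trans (sum_le_sum fun T hT => ?_)
    rw [mem_filter] at hT
    rw [card_powersetCard]
    have h5 : ((T ∪ F T).card : ℝ) ≤ 2 * M := by
      have h6 : ((T ∪ F T).card : ℝ) ≤ T.card + (F T).card := by exact_mod_cast card_union_le _ _
      have h7 := (hF1 T).2
      have h8 : q * M ≤ M := mul_le_of_le_one_left hM h1
      linarith [hT.2]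
    have h6 : (((T ∪ F T).card.choose m : ℕ) : ℝ) ≤ ((T ∪ F T).card : ℝ) ^ m / m.factorial :=
      Nat.choose_le_pow_div m _
    refine h6.trans (le_trans ?_ (fac hm (by linarith)))
    apply div_le_div_of_nonneg_right _ (by positivity)
    exact pow_le_pow_left₀ (Nat.cast_nonneg _) h5 m
  rw [sum_const, nsmul_eq_mul] at h3
  have h4 : (((𝒯.filter fun T => (T.card : ℝ) ≤ b).card : ℕ) : ℝ) ≤ Real.exp 1 ^ m := by
    have h5 : (((𝒯.filter fun T => (T.card : ℝ) ≤ b).card : ℕ) : ℝ) ≤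
        ((Fintype.card Γ : ℝ) ^ n + 1) ^ ⌊b⌋₊ := by
      rw [← hcard]
      exact_mod_cast (card_filter_le _ _).trans (small_card (univ : Finset (Fin n → Γ)) ⌊b⌋₊)
    refine h5.trans ?_
    have hG : (0 : ℝ) ≤ (Fintype.card Γ : ℝ) ^ n := by positivity
    have hL : 0 ≤ Real.log ((Fintype.card Γ : ℝ) ^ n + 1) := Real.log_nonneg (by linarith)
    rw [← Real.exp_log (show 0 < (Fintype.card Γ : ℝ) ^ n + 1 by linarith), ← Real.exp_nat_mul,
      ← Real.exp_nat_mul]
    apply Real.exp_le_exp.2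
    rw [mul_one]
    by_cases hb0 : 0 ≤ b
    · exact ((mul_le_mul_of_nonneg_right (Nat.floor_le hb0) hL).trans hb2).trans hqm
    · push Not at hb0
      rw [Nat.floor_of_nonpos hb0.le]
      push_cast
      linarith
  refine h3.trans ?_
  have he : Real.exp 1 * Real.exp 1 ≤ 15 / 2 := by
    have := Real.exp_one_lt_d9
    have := Real.exp_pos 1
    nlinarith
  calc (((𝒯.filter fun T => (T.card : ℝ) ≤ b).card : ℕ) : ℝ) * (2 * M / m * Real.exp 1) ^ m
      ≤ Real.exp 1 ^ m * (2 * M / m * Real.exp 1) ^ m :=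
        mul_le_mul_of_nonneg_right h4 (by positivity)
    _ = (Real.exp 1 * Real.exp 1 * 2 * (M / m)) ^ m := by rw [← mul_pow]; congr 1; ring
    _ ≤ (15 / q) ^ m := by
        apply pow_le_pow_left₀ (by positivity)
        have h5 : M / m ≤ 1 / q := by
          rw [div_le_div_iff₀ hm0 h0]
          linarith
        calc Real.exp 1 * Real.exp 1 * 2 * (M / m) ≤ 15 / 2 * 2 * (1 / q) := by
              apply mul_le_mul _ h5 (by positivity) (by norm_num)
              linarith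
          _ = 15 / q := by ring

open Classical in
theorem count {v : Fin 3 → Γ} (hv : Function.Injective v) {L α γ : ℝ} (hg : Growth p v L α γ)
    (hα : γ - 1 / 2 < α) {x φ : ℝ} (hx : 0 < x)
    (hφ : φ = γ - x - (γ - α) * max 0 (1 - 2 * x)) (hφ0 : 0 < φ) {ε : ℝ} (hε : 0 < ε) :
    ∀ᶠ n : ℕ in atTop, (p : ℝ) ^ ((x - ε) * (n * ⌊(p : ℝ) ^ (φ * n)⌋₊)) ≤
        cnt p v n ⌊(p : ℝ) ^ (φ * n)⌋₊ ∧
      (cnt p v n ⌊(p : ℝ) ^ (φ * n)⌋₊ : ℝ) ≤
        (p : ℝ) ^ ((x + ε) * (n * ⌊(p : ℝ) ^ (φ * n)⌋₊)) := by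
  have hp1 : (1 : ℝ) < p := by exact_mod_cast hp.out.one_lt
  have hp0 : (0 : ℝ) < p := by linarith
  obtain ⟨e, he⟩ : ∃ e : ℝ, e = γ - α := ⟨_, rfl⟩
  have he0 : 0 ≤ e := by rw [he]; linarith [hg.le_γ]
  have he1 : 2 * e < 1 := by rw [he]; linarith
  -- lower bound
  obtain ⟨t, ht0, htx, htε⟩ : ∃ t : ℝ, 0 < t ∧ t ≤ x ∧ t ≤ ε / 2 :=
    ⟨min x (ε / 2), lt_min hx (by positivity), min_le_left _ _, min_le_right _ _⟩
  have hmax1 : max 0 (1 - 2 * (x - t)) ≤ max 0 (1 - 2 * x) + 2 * t := by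
    apply max_le
    · have := le_max_left 0 (1 - 2 * x)
      linarith
    · have := le_max_right 0 (1 - 2 * x)
      linarith
  obtain ⟨φ', hφ'⟩ : ∃ φ' : ℝ, φ' = γ - (x - t) - (γ - α) * max 0 (1 - 2 * (x - t)) := ⟨_, rfl⟩
  have hφφ' : φ < φ' := by
    rw [hφ, hφ', ← he]
    have := mul_le_mul_of_nonneg_left hmax1 he0
    nlinarith
  have hlow := both (p := p) hv hg (x := x - t) (φ := φ') (by linarith) hφ' (by linarith)
    (ε := φ' - φ) (by linarith)
  -- upper bound
  obtain ⟨u, hu0, huφ, huε⟩ : ∃ u : ℝ, 0 < u ∧ u ≤ φ / 2 ∧ u ≤ ε / 2 :=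
    ⟨min (φ / 2) (ε / 2), lt_min (by positivity) (by positivity), min_le_left _ _, min_le_right _ _⟩
  have hmax2 : max 0 (1 - 2 * x) ≤ max 0 (1 - 2 * (x + u)) + 2 * u := by
    apply max_le
    · have := le_max_left 0 (1 - 2 * (x + u))
      linarith
    · have := le_max_right 0 (1 - 2 * (x + u))
      linarith
  have hmax3 : max 0 (1 - 2 * (x + u)) ≤ max 0 (1 - 2 * x) :=
    max_le_max le_rfl (by linarith)
  obtain ⟨φ₂, hφ₂⟩ : ∃ φ₂ : ℝ, φ₂ = γ - (x + u) - (γ - α) * max 0 (1 - 2 * (x + u)) := ⟨_, rfl⟩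
  have hφφ₂ : φ₂ < φ := by
    rw [hφ, hφ₂, ← he]
    have := mul_le_mul_of_nonneg_left hmax2 he0
    nlinarith
  have hφ₂0 : 0 < φ₂ := by
    have h1 : φ - u ≤ φ₂ := by
      rw [hφ, hφ₂, ← he]
      have := mul_le_mul_of_nonneg_left hmax3 he0
      linarith
    linarith
  have hupp := covers (p := p) hv hg.le' hg.hG hg.le_γ hg.half (x := x + u) (φ := φ₂)
    (by linarith) hφ₂ hφ₂0 (ε := φ - φ₂) (by linarith)
  have h15 := lin_exp hp1 15 0 (show 0 < ε / 2 by positivity)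
  filter_upwards [hlow.eventually_const_le (show (1 / 2 : ℝ) < 1 by norm_num), hupp, h15,
    eventually_ge_atTop 1] with n hn1 hn2 hn3 hn4
  have hn0 : (1 : ℝ) ≤ n := by exact_mod_cast hn4
  obtain ⟨m, hm⟩ : ∃ m : ℕ, m = ⌊(p : ℝ) ^ (φ * n)⌋₊ := ⟨_, rfl⟩
  have hpφ1 : 1 ≤ (p : ℝ) ^ (φ * n) := Real.one_le_rpow hp1.le (by positivity)
  have hm1 : 1 ≤ m := by
    rw [hm]
    exact Nat.le_floor (by simpa using hpφ1)
  have hmle : (m : ℝ) ≤ (p : ℝ) ^ (φ * n) := by rw [hm]; exact Nat.floor_le (by positivity)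
  have hmgt : (p : ℝ) ^ (φ * n) < m + 1 := by rw [hm]; exact Nat.lt_floor_add_one _
  have hmr : (1 : ℝ) ≤ m := by exact_mod_cast hm1
  rw [← hm]
  have h15' : 15 ≤ (p : ℝ) ^ (ε / 2 * n) := by linarith
  constructor
  · -- lower bound
    obtain ⟨q, hq⟩ : ∃ q : ℝ, q = (p : ℝ) ^ (-((x - t) * n)) := ⟨_, rfl⟩
    have hq0 : 0 < q := by rw [hq]; positivity
    have hq1 : q ≤ 1 := by
      rw [hq]
      exact Real.rpow_le_one_of_one_le_of_nonpos hp1.le (by
        have : 0 ≤ (x - t) * n := mul_nonneg (by linarith) (by linarith)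
        linarith)
    have h1 : (1 / 2 : ℝ) ≤ cnt p v n m * q ^ m := by
      refine hn1.trans ?_
      rw [← hq, Pr_eq]
      have h2 : ∑ S ∈ (univ : Finset (Fin n → Γ)).powerset.filter (fun S =>
          (∃ A ⊆ S, Free (p := p) v A ∧ (p : ℝ) ^ ((φ' - (φ' - φ)) * n) ≤ (A.card : ℝ)) ∧
          ∀ A ⊆ S, Free (p := p) v A → (A.card : ℝ) ≤ (p : ℝ) ^ ((φ' + (φ' - φ)) * n)),
            wt univ q S ≤
          ∑ A ∈ (univ : Finset (Finset (Fin n → Γ))).filter
            (fun A => Free (p := p) v A ∧ A.card = m),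
            ∑ S ∈ (univ : Finset (Fin n → Γ)).powerset.filter (fun S => A ⊆ S), wt univ q S := by
        simp_rw [sum_filter (s := (univ : Finset (Fin n → Γ)).powerset)]
        rw [sum_comm]
        refine sum_le_sum fun S _ => ?_
        have hw := wt_nonneg (U := (univ : Finset (Fin n → Γ))) hq0.le hq1 S
        split_ifs with hgood
        · obtain ⟨⟨A, hA, hf, hc⟩, _⟩ := hgood
          have hmA : m ≤ A.card := by
            have h3 : (m : ℝ) ≤ A.card := by
              refine hmle.trans (le_trans (le_of_eq ?_) hc)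
              congr 1; ring
            exact_mod_cast h3
          obtain ⟨B, hBA, hBc⟩ := exists_subset_card_eq hmA
          have hBf : Free (p := p) v B := fun a z h => hf a z fun j => hBA (h j)
          have hBm : B ∈ (univ : Finset (Finset (Fin n → Γ))).filter
              (fun A => Free (p := p) v A ∧ A.card = m) :=
            mem_filter.2 ⟨mem_univ _, hBf, hBc⟩
          calc wt univ q S = if B ⊆ S then wt univ q S else 0 := by rw [if_pos (hBA.trans hA)]
            _ ≤ _ := single_le_sum (f := fun A => if A ⊆ S then wt univ q S else 0)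
              (fun A _ => by split_ifs <;> simp [hw]) hBm
        · exact sum_nonneg fun A _ => by split_ifs <;> simp [hw]
      refine h2.trans (le_of_eq ?_)
      have h3 : ∀ A ∈ (univ : Finset (Finset (Fin n → Γ))).filter
            (fun A => Free (p := p) v A ∧ A.card = m),
            ∑ S ∈ (univ : Finset (Fin n → Γ)).powerset.filter (fun S => A ⊆ S), wt univ q S =
            q ^ m := by
        intro A hA
        have h4 := contain (subset_univ A) q
        rw [(mem_filter.1 hA).2.2] at h4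
        convert h4
      rw [sum_congr rfl h3, sum_const, nsmul_eq_mul]
      rfl
    have hqm : q ^ m = (p : ℝ) ^ (-((x - t) * (n * m))) := by
      rw [hq, ← Real.rpow_mul_natCast hp0.le]
      congr 1
      ring
    have h4 : (p : ℝ) ^ ((x - ε) * (n * m)) ≤ 1 / 2 * (p : ℝ) ^ ((x - t) * (n * m)) := by
      have h5 : (p : ℝ) ^ ((x - ε) * (n * m)) * (p : ℝ) ^ (ε / 2 * n) ≤
          (p : ℝ) ^ ((x - t) * (n * m)) := by
        rw [← Real.rpow_add hp0]
        apply Real.rpow_le_rpow_of_exponent_le hp1.le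
        have h6 : ε / 2 * n ≤ ε / 2 * (n * m) := by
          apply mul_le_mul_of_nonneg_left _ (by positivity)
          nlinarith
        have h7 : 0 ≤ (ε / 2 - t) * (n * m) := mul_nonneg (by linarith) (by positivity)
        nlinarith
      have h8 : 0 < (p : ℝ) ^ ((x - ε) * (n * m)) := by positivity
      nlinarith
    refine h4.trans ?_
    have h5 : 0 < (p : ℝ) ^ ((x - t) * (n * m)) := by positivity
    have h6 : q ^ m * (p : ℝ) ^ ((x - t) * (n * m)) = 1 := by
      rw [hqm, ← Real.rpow_add hp0, neg_add_cancel, Real.rpow_zero]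
    calc 1 / 2 * (p : ℝ) ^ ((x - t) * (n * m))
        ≤ (cnt p v n m * q ^ m) * (p : ℝ) ^ ((x - t) * (n * m)) :=
          mul_le_mul_of_nonneg_right h1 h5.le
      _ = cnt p v n m * (q ^ m * (p : ℝ) ^ ((x - t) * (n * m))) := by ring
      _ = cnt p v n m := by rw [h6, mul_one]
  · -- upper bound
    obtain ⟨M, b, hM, hc, hb1, hb2, hM1, hM2⟩ := hn2
    obtain ⟨q, hq⟩ : ∃ q : ℝ, q = (p : ℝ) ^ (-((x + u) * n)) := ⟨_, rfl⟩
    have hq0 : 0 < q := by rw [hq]; positivity
    have hq1 : q ≤ 1 := by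
      rw [hq]
      exact Real.rpow_le_one_of_one_le_of_nonpos hp1.le (by
        have : 0 ≤ (x + u) * n := mul_nonneg (by linarith) (by linarith)
        linarith)
    rw [← hq] at hb1 hb2 hM1 hM2
    have h1 : 1 ≤ q * M := le_trans (Real.one_le_rpow hp1.le (by positivity)) hM1
    have h2 : q * M ≤ m := by
      have e1 : (φ₂ + (φ - φ₂)) * (n : ℝ) = φ * n := by ring
      rw [e1] at hM2
      linarith
    refine (cnt_le hq0 hq1 hM hc hb1 hb2 hm1 h2).trans ?_
    have h3 : (p : ℝ) ^ ((x + ε) * (n * m)) = ((p : ℝ) ^ ((x + ε) * n)) ^ m := by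
      rw [← Real.rpow_mul_natCast hp0.le]; congr 1; ring
    rw [h3]
    apply pow_le_pow_left₀ (by positivity)
    rw [div_le_iff₀ hq0, hq, ← Real.rpow_add hp0]
    refine h15'.trans (Real.rpow_le_rpow_of_exponent_le hp1.le ?_)
    have h4 : (x + ε) * n + -((x + u) * n) = (ε - u) * (n : ℝ) := by ring
    rw [h4]
    apply mul_le_mul_of_nonneg_right _ (by linarith)
    linarith

end Pool.Agent.Run7.h918.SP
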