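import Pool.Agent.Run7.h918.SP.Rel
import Pool.Agent.Run7.h918.SP.Rnd

/-!
# Large sets without copies in random sets: the preimage of an extremal set under a projection
-/

set_option autoImplicit false

namespace Pool.Agent.Run7.h918.SP

open Finset Run7.h125.Sat

variable {p : ℕ} [hp : Fact p.Prime] {Γ : Type} [AddCommGroup Γ] [Module (ZMod p) Γ]
  [Fintype Γ] [DecidableEq Γ]

/-- the preimage of `A` under the projection to the first `m` coordinates -/
def pull {m : ℕ} (k : ℕ) (A : Finset (Fin m → Γ)) : Finset (Fin (m + k) → Γ) :=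
  (A ×ˢ (univ : Finset (Fin k → Γ))).map (Fin.appendEquiv m k).toEmbedding

omit [AddCommGroup Γ] in
theorem card_pull {m : ℕ} (k : ℕ) (A : Finset (Fin m → Γ)) :
    (pull k A).card = A.card * Fintype.card Γ ^ k := by
  rw [pull, card_map, card_product, card_univ, Fintype.card_fun, Fintype.card_fin]

omit [AddCommGroup Γ] in
theorem mem_pull {m k : ℕ} {A : Finset (Fin m → Γ)} {w : Fin (m + k) → Γ} (hw : w ∈ pull k A) :
    (fun i => w (Fin.castAdd k i)) ∈ A := by
  rw [pull, Finset.mem_map] at hw
  obtain ⟨q, hq, rfl⟩ := hw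
  rw [mem_product] at hq
  have : (fun i => (Fin.appendEquiv m k).toEmbedding q (Fin.castAdd k i)) = q.1 := by
    funext i; simp [Fin.appendEquiv]
  rw [this]; exact hq.1

theorem ntc_pull {m k : ℕ} (v : Fin 3 → Γ) {A : Finset (Fin m → Γ)} (hA : Free (p := p) v A) :
    (ntc (p := p) v (pull k A)).card ≤ (pull k A).card * (if k = 0 then 0 else p ^ k) := by
  classical
  have hz0 : ∀ q ∈ ntc (p := p) v (pull k A), (∀ i, q.2 (Fin.castAdd k i) = 0) ∧
      (fun i => q.1 (Fin.castAdd k i)) ∈ A := by
    rintro ⟨x, z⟩ hq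
    rw [mem_ntc] at hq
    have h1 : (fun i => z (Fin.castAdd k i)) = 0 :=
      hA (fun i => x (Fin.castAdd k i)) (fun i => z (Fin.castAdd k i)) fun j => mem_pull (hq.1 j)
    refine ⟨fun i => congrFun h1 i, ?_⟩
    have h2 := mem_pull (hq.1 0)
    have e : (fun i => pt v x z 0 (Fin.castAdd k i)) = fun i => x (Fin.castAdd k i) := by
      funext i
      rw [pt_apply]
      have := congrFun h1 i
      simp only [Pi.zero_apply] at this
      rw [this, zero_smul, add_zero]
    rwa [e] at h2
  by_cases hk : k = 0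
  · rw [if_pos hk, mul_zero, Nat.le_zero, card_eq_zero]
    apply eq_empty_of_forall_notMem
    intro q hq
    have h1 := hz0 q hq
    rw [mem_ntc] at hq
    apply hq.2
    subst hk
    funext i
    exact h1.1 i
  · rw [if_neg hk, card_pull]
    have h : (ntc (p := p) v (pull k A)).card ≤
        (A ×ˢ ((univ : Finset (Fin k → Γ)) ×ˢ (univ : Finset (Fin k → ZMod p)))).card := by
      apply card_le_card_of_injOn (fun q => (fun i => q.1 (Fin.castAdd k i),
        (fun i => q.1 (Fin.natAdd m i), fun i => q.2 (Fin.natAdd m i))))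
      · intro q hq
        rw [mem_coe, mem_product]
        exact ⟨(hz0 q hq).2, mem_product.2 ⟨mem_univ _, mem_univ _⟩⟩
      · intro q hq q' hq' h
        simp only [Prod.mk.injEq] at h
        obtain ⟨h1, h2, h3⟩ := h
        apply Prod.ext
        · funext i
          refine Fin.addCases (fun a => ?_) (fun a => ?_) i
          · exact congrFun h1 a
          · exact congrFun h2 a
        · funext i
          refine Fin.addCases (fun a => ?_) (fun a => ?_) i
          · rw [(hz0 q hq).1, (hz0 q' hq').1]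
          · exact congrFun h3 a
    rw [card_product, card_product, card_univ, card_univ, Fintype.card_fun, Fintype.card_fun,
      Fintype.card_fin, ZMod.card] at h
    rwa [mul_assoc]

/-- the points of a copy -/
def pts {n : ℕ} (v : Fin 3 → Γ) (c : (Fin n → Γ) × (Fin n → ZMod p)) : Finset (Fin n → Γ) :=
  univ.image fun j => pt v c.1 c.2 j

omit [Fintype Γ] in
theorem card_pts {n : ℕ} {v : Fin 3 → Γ} (hv : Function.Injective v)
    {c : (Fin n → Γ) × (Fin n → ZMod p)} (hc : c.2 ≠ 0) : (pts v c).card = 3 := by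
  unfold pts
  rw [card_image_of_injective, card_univ, Fintype.card_fin]
  intro j k h
  by_contra hjk
  exact pt_ne hv hjk hc h

open Classical in
theorem low {v : Fin 3 → Γ} (hv : Function.Injective v) (m k : ℕ) {q : ℝ} (h0 : 0 < q)
    (h1 : q ≤ 1) {s : ℝ} (hs : s = r p v m * (Fintype.card Γ : ℝ) ^ k) :
    ∑ S ∈ (univ : Finset (Fin (m + k) → Γ)).powerset.filter
      (fun S => ∀ A ⊆ S, Free (p := p) v A → (A.card : ℝ) < q * s / 4), wt univ q S ≤
    Real.exp (-(q * s / 16)) + 4 * q ^ 2 * (if k = 0 then 0 else (p : ℝ) ^ k) := by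
  obtain ⟨A, hA, hAc⟩ := exists_r (p := p) v m
  have hr1 : 1 ≤ r p v m := one_le_r v (hv.ne (show (0 : Fin 3) ≠ 1 by decide)) m
  have hG : 0 < Fintype.card Γ := Fintype.card_pos
  have hs0 : 0 < s := by
    rw [hs]
    have : (0 : ℝ) < r p v m := by exact_mod_cast hr1
    have : (0 : ℝ) < Fintype.card Γ := by exact_mod_cast hG
    positivity
  set S' := pull k A with hS'
  have hcS : (S'.card : ℝ) = s := by
    rw [hS', card_pull, hAc, hs]
    push_cast
    ring
  have hntc : ((ntc (p := p) v S').card : ℝ) ≤ s * (if k = 0 then 0 else (p : ℝ) ^ k) := by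
    rw [← hcS]
    exact_mod_cast ntc_pull (k := k) v hA
  have hun := union (U := (univ : Finset (Fin (m + k) → Γ))) (q := q) h0.le h1
    (P := fun S => ∀ A ⊆ S, Free (p := p) v A → (A.card : ℝ) < q * s / 4)
    (Q := fun S => ((S ∩ S').card : ℝ) ≤ q * s / 2)
    (R := fun S => q * s / 4 ≤ (((ntc (p := p) v S').filter fun c => pts v c ⊆ S).card : ℝ)) (by
      intro S _ hP
      by_contra hcon
      rw [not_or, not_le, not_le] at hcon
      obtain ⟨B, hB, hBf, hBc⟩ := delete (p := p) v (S ∩ S')
      have h3 := hP B (hB.trans inter_subset_left) hBf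
      have h4 : (ntc (p := p) v (S ∩ S')).card ≤
          ((ntc (p := p) v S').filter fun c => pts v c ⊆ S).card := by
        apply card_le_card
        intro c hc
        rw [mem_ntc] at hc
        rw [mem_filter, mem_ntc]
        refine ⟨⟨fun j => (mem_inter.1 (hc.1 j)).2, hc.2⟩, ?_⟩
        intro w hw
        unfold pts at hw
        rw [mem_image] at hw
        obtain ⟨j, _, rfl⟩ := hw
        exact (mem_inter.1 (hc.1 j)).1
      have h5 : ((S ∩ S').card : ℝ) ≤ B.card +
          (((ntc (p := p) v S').filter fun c => pts v c ⊆ S).card : ℝ) := by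
        exact_mod_cast hBc.trans (Nat.add_le_add_left h4 _)
      linarith [hcon.1, hcon.2])
  refine hun.trans (add_le_add ?_ ?_)
  · have h2 := lower_tail (U := (univ : Finset (Fin (m + k) → Γ))) (subset_univ S') (q := q)
      (lam := 1 / 4) (a := q * s / 2) h0.le h1 (by norm_num) (by norm_num)
    refine h2.trans (le_of_eq ?_)
    rw [hcS]
    congr 1
    ring
  · have h2 := markov (U := (univ : Finset (Fin (m + k) → Γ))) (q := q) (t := q * s / 4) h0.le h1
      (by positivity) (ntc (p := p) v S') (pts v) (fun c hc => ⟨subset_univ _,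
        card_pts hv (mem_ntc.1 hc).2⟩)
    refine h2.trans ?_
    rw [div_le_iff₀ (by positivity)]
    calc q ^ 3 * ((ntc (p := p) v S').card : ℝ)
        ≤ q ^ 3 * (s * (if k = 0 then 0 else (p : ℝ) ^ k)) :=
          mul_le_mul_of_nonneg_left hntc (by positivity)
      _ = _ := by ring

end Pool.Agent.Run7.h918.SP
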