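import Pool.Agent.Run7.h918.SP.Low

/-!
# The lower bound, asymptotically
-/

set_option autoImplicit false

namespace Pool.Agent.Run7.h918.SP

open Finset Run7.h125.Sat Filter Topology

variable {p : ℕ} [hp : Fact p.Prime] {Γ : Type} [AddCommGroup Γ] [Module (ZMod p) Γ]
  [Fintype Γ] [DecidableEq Γ]

open Classical in
theorem low' {v : Fin 3 → Γ} (hv : Function.Injective v) {n m k : ℕ} (hn : n = m + k) {q : ℝ}
    (h0 : 0 < q) (h1 : q ≤ 1) {s t : ℝ} (hs : s = r p v m * (Fintype.card Γ : ℝ) ^ k)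
    (ht : t ≤ q * s / 4) :
    ∑ S ∈ (univ : Finset (Fin n → Γ)).powerset.filter
      (fun S => ∀ A ⊆ S, Free (p := p) v A → (A.card : ℝ) < t), wt univ q S ≤
    Real.exp (-(q * s / 16)) + 4 * q ^ 2 * (if k = 0 then 0 else (p : ℝ) ^ k) := by
  subst hn
  refine le_trans ?_ (low hv m k h0 h1 hs)
  apply sum_le_sum_of_subset_of_nonneg
  · intro S hS
    rw [mem_filter] at hS ⊢
    exact ⟨hS.1, fun A hA hf => (hS.2 A hA hf).trans_le ht⟩
  · intro S _ _
    exact wt_nonneg h0.le h1 S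

theorem exp_dec {c b t : ℝ} (hc : 0 < c) (hb : 1 < b) (ht : 0 < t) :
    Tendsto (fun n : ℕ => Real.exp (-(c * b ^ (t * n)))) atTop (𝓝 0) := by
  have h1 : Tendsto (fun n : ℕ => b ^ (t * (n : ℝ))) atTop atTop := by
    have e : (fun n : ℕ => b ^ (t * (n : ℝ))) = fun n : ℕ => (b ^ t) ^ n := by
      funext n
      rw [Real.rpow_mul (by linarith), Real.rpow_natCast]
    rw [e]
    exact tendsto_pow_atTop_atTop_of_one_lt (Real.one_lt_rpow hb ht)
  have h2 := (h1.const_mul_atTop hc)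
  exact Real.tendsto_exp_neg_atTop_nhds_zero.comp h2

theorem pow_dec {b t : ℝ} (hb : 1 < b) (ht : 0 < t) :
    Tendsto (fun n : ℕ => b ^ (-(t * n))) atTop (𝓝 0) := by
  have e : (fun n : ℕ => b ^ (-(t * (n : ℝ)))) = fun n : ℕ => (b ^ (-t)) ^ n := by
    funext n
    rw [← neg_mul, Real.rpow_mul (by linarith), Real.rpow_natCast]
  rw [e]
  exact tendsto_pow_atTop_nhds_zero_of_lt_one (by positivity)
    (Real.rpow_lt_one_of_one_lt_of_neg hb (by linarith))

open Classical in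
theorem lowlim {v : Fin 3 → Γ} (hv : Function.Injective v) {α γ : ℝ}
    (hα : ∀ ε : ℝ, 0 < ε → ∃ C : ℝ, 0 < C ∧ ∀ m : ℕ, C * (p : ℝ) ^ ((α - ε) * m) ≤ r p v m)
    (hγ : (Fintype.card Γ : ℝ) = (p : ℝ) ^ γ) (hαγ : α ≤ γ) {x φ : ℝ} (hx : 0 ≤ x)
    (hφ : φ = γ - x - (γ - α) * max 0 (1 - 2 * x)) (hφ0 : 0 < φ) {ε : ℝ} (hε : 0 < ε) :
    Tendsto (fun n : ℕ => ∑ S ∈ (univ : Finset (Fin n → Γ)).powerset.filter
      (fun S => ∀ A ⊆ S, Free (p := p) v A → (A.card : ℝ) < (p : ℝ) ^ ((φ - ε) * n)),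
        wt univ ((p : ℝ) ^ (-(x * n))) S) atTop (𝓝 0) := by
  have hp1 : (1 : ℝ) < p := by exact_mod_cast hp.out.one_lt
  have hp0 : (0 : ℝ) < p := by linarith
  obtain ⟨δ, hδ0, hδε, hδφ⟩ : ∃ δ : ℝ, 0 < δ ∧ δ ≤ ε ∧ δ ≤ φ :=
    ⟨min ε φ, lt_min hε hφ0, min_le_left _ _, min_le_right _ _⟩
  obtain ⟨μ, hμ⟩ : ∃ μ : ℝ, μ = max 0 (1 - 2 * x) := ⟨_, rfl⟩
  have hμ0 : 0 ≤ μ := by rw [hμ]; exact le_max_left _ _
  have hμx : 1 - 2 * x ≤ μ := by rw [hμ]; exact le_max_right _ _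
  have hμ1 : μ ≤ 1 := by rw [hμ]; exact max_le zero_le_one (by linarith)
  rw [← hμ] at hφ
  have he : 0 ≤ γ - α := by linarith
  obtain ⟨η, hη0, hη1, hη⟩ : ∃ η : ℝ, 0 < η ∧ η ≤ 1 ∧ η * (γ - α + 2) ≤ δ / 2 := by
    refine ⟨min 1 (δ / 2 / (γ - α + 2)), lt_min one_pos (by positivity), min_le_left _ _, ?_⟩
    calc min 1 (δ / 2 / (γ - α + 2)) * (γ - α + 2) ≤ δ / 2 / (γ - α + 2) * (γ - α + 2) :=
          mul_le_mul_of_nonneg_right (min_le_right _ _) (by linarith)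
      _ = δ / 2 := by field_simp
  obtain ⟨C, hC, hr⟩ := hα η hη0
  obtain ⟨C', hC', hC'e⟩ : ∃ C' : ℝ, 0 < C' ∧ C' = C * (p : ℝ) ^ (-(γ - α + η)) / 4 :=
    ⟨_, by positivity, rfl⟩
  -- the bound for one n
  have key : ∀ n : ℕ, 1 ≤ C' * (p : ℝ) ^ (δ / 2 * n) →
      ∑ S ∈ (univ : Finset (Fin n → Γ)).powerset.filter
      (fun S => ∀ A ⊆ S, Free (p := p) v A → (A.card : ℝ) < (p : ℝ) ^ ((φ - ε) * n)),
        wt univ ((p : ℝ) ^ (-(x * n))) S ≤
      Real.exp (-(C' / 4 * (p : ℝ) ^ ((φ / 2) * n))) + 4 * (p : ℝ) ^ (-(η * n)) := by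
    intro n hn
    have hn0 : (0 : ℝ) ≤ n := Nat.cast_nonneg _
    set k : ℕ := min n ⌊(2 * x - η) * n⌋₊ with hk
    obtain ⟨m, hm⟩ : ∃ m, n = m + k := ⟨n - k, by have := min_le_left n ⌊(2 * x - η) * n⌋₊; omega⟩
    have hmr : (n : ℝ) = m + k := by exact_mod_cast hm
    have hm1 : (m : ℝ) ≤ n * (μ + η) + 1 := by
      by_cases h : n ≤ ⌊(2 * x - η) * n⌋₊
      · have h2 : k = n := min_eq_left h
        have h3 : m = 0 := by omega
        rw [h3]
        push_cast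
        positivity
      · have h2 : k = ⌊(2 * x - η) * n⌋₊ := min_eq_right (by omega)
        have h3 : (2 * x - η) * n < k + 1 := by
          rw [h2]; exact Nat.lt_floor_add_one _
        nlinarith [mul_nonneg hn0 hμ0, mul_le_mul_of_nonneg_left hμx hn0]
    set q : ℝ := (p : ℝ) ^ (-(x * n)) with hq
    have hq0 : 0 < q := by positivity
    have hq1 : q ≤ 1 := Real.rpow_le_one_of_one_le_of_nonpos hp1.le (by
      have : 0 ≤ x * n := mul_nonneg hx hn0
      linarith)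
    obtain ⟨s, hs⟩ : ∃ s : ℝ, s = r p v m * (Fintype.card Γ : ℝ) ^ k := ⟨_, rfl⟩
    have hqs : C' * (p : ℝ) ^ ((φ - δ / 2) * n) ≤ q * s / 4 := by
      have h3 : C * (p : ℝ) ^ ((α - η) * m) * (p : ℝ) ^ (γ * k) ≤ s := by
        rw [hs, hγ, ← Real.rpow_mul_natCast hp0.le]
        exact mul_le_mul_of_nonneg_right (hr m) (by positivity)
      have h4 : (p : ℝ) ^ (-(γ - α + η)) * (p : ℝ) ^ ((φ - δ / 2) * n) ≤
          (p : ℝ) ^ (-(x * n)) * ((p : ℝ) ^ ((α - η) * m) * (p : ℝ) ^ (γ * k)) := by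
        rw [← Real.rpow_add hp0, ← Real.rpow_add hp0, ← Real.rpow_add hp0]
        apply Real.rpow_le_rpow_of_exponent_le hp1.le
        have h5 : (γ - α + η) * m ≤ (γ - α + η) * (n * (μ + η) + 1) :=
          mul_le_mul_of_nonneg_left hm1 (by linarith)
        have h6 : n * (η * (γ - α + 2)) ≤ n * (δ / 2) := mul_le_mul_of_nonneg_left hη hn0
        have h7 : n * (η * (μ + η)) ≤ n * (η * 2) :=
          mul_le_mul_of_nonneg_left (mul_le_mul_of_nonneg_left (by linarith) hη0.le) hn0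
        have e1 : (α - η) * m + γ * k = γ * n - (γ - α + η) * m := by rw [hmr]; ring
        rw [e1, hφ]
        nlinarith
      calc C' * (p : ℝ) ^ ((φ - δ / 2) * n)
          = C / 4 * ((p : ℝ) ^ (-(γ - α + η)) * (p : ℝ) ^ ((φ - δ / 2) * n)) := by
            rw [hC'e]; ring
        _ ≤ C / 4 * ((p : ℝ) ^ (-(x * n)) * ((p : ℝ) ^ ((α - η) * m) * (p : ℝ) ^ (γ * k))) :=
            mul_le_mul_of_nonneg_left h4 (by positivity)
        _ = q * (C * (p : ℝ) ^ ((α - η) * m) * (p : ℝ) ^ (γ * k)) / 4 := by rw [hq]; ring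
        _ ≤ q * s / 4 := by
            apply div_le_div_of_nonneg_right _ (by norm_num)
            exact mul_le_mul_of_nonneg_left h3 hq0.le
    have ht : (p : ℝ) ^ ((φ - ε) * n) ≤ q * s / 4 := by
      refine le_trans ?_ hqs
      have e1 : (p : ℝ) ^ ((φ - δ / 2) * n) = (p : ℝ) ^ (δ / 2 * n) * (p : ℝ) ^ ((φ - δ) * n) := by
        rw [← Real.rpow_add hp0]; congr 1; ring
      rw [e1, ← mul_assoc]
      have h3 : (p : ℝ) ^ ((φ - ε) * n) ≤ (p : ℝ) ^ ((φ - δ) * n) :=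
        Real.rpow_le_rpow_of_exponent_le hp1.le (by nlinarith)
      refine h3.trans ?_
      exact le_mul_of_one_le_left (by positivity) hn
    have h2 := low' hv hm hq0 hq1 hs ht
    refine h2.trans (add_le_add ?_ ?_)
    · apply Real.exp_le_exp.2
      have h3 : (p : ℝ) ^ ((φ / 2) * n) ≤ (p : ℝ) ^ ((φ - δ / 2) * n) :=
        Real.rpow_le_rpow_of_exponent_le hp1.le (by nlinarith)
      have h4 : C' * (p : ℝ) ^ ((φ / 2) * n) ≤ q * s / 4 :=
        (mul_le_mul_of_nonneg_left h3 hC'.le).trans hqs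
      linarith
    · by_cases hk0 : k = 0
      · rw [if_pos hk0, mul_zero]
        positivity
      · rw [if_neg hk0]
        have h3 : (k : ℝ) ≤ (2 * x - η) * n := by
          have h4 : k ≤ ⌊(2 * x - η) * n⌋₊ := min_le_right _ _
          have h5 : 0 ≤ (2 * x - η) * n := by
            by_contra hneg
            push Not at hneg
            rw [Nat.floor_of_nonpos hneg.le] at h4
            omega
          exact (Nat.cast_le.2 h4).trans (Nat.floor_le h5)
        have h4 : (p : ℝ) ^ k ≤ (p : ℝ) ^ ((2 * x - η) * n) := by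
          rw [← Real.rpow_natCast]
          exact Real.rpow_le_rpow_of_exponent_le hp1.le h3
        have e : q ^ 2 * (p : ℝ) ^ ((2 * x - η) * n) = (p : ℝ) ^ (-(η * n)) := by
          rw [hq, ← Real.rpow_mul_natCast hp0.le, ← Real.rpow_add hp0]
          congr 1
          push_cast
          ring
        calc 4 * q ^ 2 * (p : ℝ) ^ k ≤ 4 * q ^ 2 * (p : ℝ) ^ ((2 * x - η) * n) :=
              mul_le_mul_of_nonneg_left h4 (by positivity)
          _ = 4 * (p : ℝ) ^ (-(η * n)) := by rw [mul_assoc, e]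
  have hlim : Tendsto (fun n : ℕ => Real.exp (-(C' / 4 * (p : ℝ) ^ ((φ / 2) * n))) +
      4 * (p : ℝ) ^ (-(η * n))) atTop (𝓝 0) := by
    have h1 := exp_dec (c := C' / 4) (t := φ / 2) (by positivity) hp1 (by positivity)
    have h2 := (pow_dec hp1 hη0).const_mul 4
    simpa using h1.add h2
  refine squeeze_zero' (Eventually.of_forall fun n => sum_nonneg fun S _ => ?_) ?_ hlim
  · refine wt_nonneg (by positivity) (Real.rpow_le_one_of_one_le_of_nonpos hp1.le ?_) S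
    have : 0 ≤ x * n := mul_nonneg hx (Nat.cast_nonneg _)
    linarith
  · have h1 : Tendsto (fun n : ℕ => C' * (p : ℝ) ^ (δ / 2 * (n : ℝ))) atTop atTop := by
      have e : (fun n : ℕ => (p : ℝ) ^ (δ / 2 * (n : ℝ))) = fun n : ℕ => ((p : ℝ) ^ (δ / 2)) ^ n := by
        funext n
        rw [Real.rpow_mul hp0.le, Real.rpow_natCast]
      have h2 : Tendsto (fun n : ℕ => (p : ℝ) ^ (δ / 2 * (n : ℝ))) atTop atTop := by
        rw [e]
        exact tendsto_pow_atTop_atTop_of_one_lt (Real.one_lt_rpow hp1 (by positivity))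
      exact h2.const_mul_atTop hC'
    filter_upwards [h1.eventually_ge_atTop 1] with n hn
    exact key n hn

end Pool.Agent.Run7.h918.SP
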