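import Pool.Agent.Run7.h918.SP.Upp

/-!
# The largest set without copies in a random set: the exact exponent
-/

set_option autoImplicit false

namespace Pool.Agent.Run7.h918.SP

open Finset Run7.h125.Sat Filter Topology

variable {p : ℕ} [hp : Fact p.Prime] {Γ : Type} [AddCommGroup Γ] [Module (ZMod p) Γ]
  [Fintype Γ] [DecidableEq Γ]

/-- the data of the growth rate -/
structure Growth (p : ℕ) [Fact p.Prime] {Γ : Type} [AddCommGroup Γ] [Module (ZMod p) Γ]
    [Fintype Γ] [DecidableEq Γ] (v : Fin 3 → Γ) (L α γ : ℝ) : Prop where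
  pos : 0 < L
  lim : Tendsto (fun n : ℕ => (r p v n : ℝ) ^ (1 / (n : ℝ))) atTop (𝓝 L)
  le : ∀ n : ℕ, (r p v n : ℝ) ≤ L ^ n
  hL : L = (p : ℝ) ^ α
  hG : (Fintype.card Γ : ℝ) = (p : ℝ) ^ γ
  le' : ∀ n : ℕ, (r p v n : ℝ) ≤ (p : ℝ) ^ (α * n)
  low : ∀ ε : ℝ, 0 < ε → ∃ C : ℝ, 0 < C ∧ ∀ m : ℕ, C * (p : ℝ) ^ ((α - ε) * m) ≤ r p v m
  one_le : 1 ≤ γ
  half : γ - 1 / 2 ≤ α
  le_γ : α ≤ γ

theorem growth {v : Fin 3 → Γ} (hv : Function.Injective v) :
    ∃ L α γ : ℝ, Growth p v L α γ := by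
  classical
  have hp1 : (1 : ℝ) < p := by exact_mod_cast hp.out.one_lt
  have hp0 : (0 : ℝ) < p := by linarith
  obtain ⟨L, hL0, hlim, hle⟩ := limit (p := p) v (hv.ne (show (0 : Fin 3) ≠ 1 by decide))
  have hG0 : (0 : ℝ) < Fintype.card Γ := by exact_mod_cast (Fintype.card_pos (α := Γ))
  have hGp : (p : ℝ) ≤ Fintype.card Γ := by exact_mod_cast p_le (p := p) hv
  obtain ⟨α, hα⟩ : ∃ α : ℝ, α = Real.logb p L := ⟨_, rfl⟩
  obtain ⟨γ, hγ⟩ : ∃ γ : ℝ, γ = Real.logb p (Fintype.card Γ) := ⟨_, rfl⟩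
  have hLα : L = (p : ℝ) ^ α := by rw [hα, Real.rpow_logb hp0 hp1.ne' hL0]
  have hGγ : (Fintype.card Γ : ℝ) = (p : ℝ) ^ γ := by rw [hγ, Real.rpow_logb hp0 hp1.ne' hG0]
  have hγ1 : 1 ≤ γ := by
    rw [hγ, Real.le_logb_iff_rpow_le hp1 hG0, Real.rpow_one]
    exact hGp
  have hle' : ∀ n : ℕ, (r p v n : ℝ) ≤ (p : ℝ) ^ (α * n) := fun n => by
    rw [Real.rpow_mul_natCast hp0.le, ← hLα]; exact hle n
  have hLG : L ≤ Fintype.card Γ := by
    refine le_of_tendsto hlim ?_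
    filter_upwards [eventually_ge_atTop 1] with n hn
    have hn' : (0 : ℝ) < n := by exact_mod_cast hn
    have h1 : (r p v n : ℝ) ≤ (Fintype.card Γ : ℝ) ^ n := by exact_mod_cast r_le_pow (p := p) v n
    calc (r p v n : ℝ) ^ (1 / (n : ℝ)) ≤ ((Fintype.card Γ : ℝ) ^ n) ^ (1 / (n : ℝ)) :=
          Real.rpow_le_rpow (Nat.cast_nonneg _) h1 (by positivity)
      _ = Fintype.card Γ := by
          rw [← Real.rpow_natCast, ← Real.rpow_mul hG0.le, mul_one_div_cancel hn'.ne',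
            Real.rpow_one]
  have hαγ : α ≤ γ := by
    rw [hα, hγ]
    exact Real.logb_le_logb_of_le hp1 hL0 hLG
  have hlow : ∀ ε : ℝ, 0 < ε → ∃ C : ℝ, 0 < C ∧ ∀ m : ℕ,
      C * (p : ℝ) ^ ((α - ε) * m) ≤ r p v m := by
    intro ε hε
    have h1 : (p : ℝ) ^ (α - ε) < L := by
      rw [hLα]; exact Real.rpow_lt_rpow_of_exponent_lt hp1 (by linarith)
    obtain ⟨n₀, hn₀⟩ := eventually_atTop.1 (hlim.eventually_const_lt h1)
    refine ⟨((Fintype.card Γ : ℝ) ^ n₀)⁻¹, by positivity, fun m => ?_⟩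
    have hG1 : (1 : ℝ) ≤ Fintype.card Γ := by linarith
    have hC1 : ((Fintype.card Γ : ℝ) ^ n₀)⁻¹ ≤ 1 := inv_le_one_of_one_le₀ (one_le_pow₀ hG1)
    have hr1 : (1 : ℝ) ≤ r p v m := by
      exact_mod_cast one_le_r (p := p) v (hv.ne (show (0 : Fin 3) ≠ 1 by decide)) m
    by_cases hm : n₀ ≤ m ∧ 1 ≤ m
    · have h2 := hn₀ m hm.1
      have hm' : (0 : ℝ) < m := by exact_mod_cast hm.2
      have h3 : (p : ℝ) ^ ((α - ε) * m) ≤ r p v m := by
        calc (p : ℝ) ^ ((α - ε) * m) = ((p : ℝ) ^ (α - ε)) ^ (m : ℝ) := by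
              rw [← Real.rpow_mul hp0.le]
          _ ≤ ((r p v m : ℝ) ^ (1 / (m : ℝ))) ^ (m : ℝ) :=
              Real.rpow_le_rpow (by positivity) h2.le hm'.le
          _ = r p v m := by
              rw [← Real.rpow_mul (Nat.cast_nonneg _), one_div_mul_cancel hm'.ne', Real.rpow_one]
      calc ((Fintype.card Γ : ℝ) ^ n₀)⁻¹ * (p : ℝ) ^ ((α - ε) * m)
          ≤ 1 * (p : ℝ) ^ ((α - ε) * m) := mul_le_mul_of_nonneg_right hC1 (by positivity)
        _ ≤ r p v m := by rw [one_mul]; exact h3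
    · have hmn : m ≤ n₀ := by omega
      have h3 : (p : ℝ) ^ ((α - ε) * m) ≤ (Fintype.card Γ : ℝ) ^ n₀ := by
        calc (p : ℝ) ^ ((α - ε) * m) ≤ (p : ℝ) ^ (γ * m) := by
              apply Real.rpow_le_rpow_of_exponent_le hp1.le
              exact mul_le_mul_of_nonneg_right (by linarith) (Nat.cast_nonneg _)
          _ = (Fintype.card Γ : ℝ) ^ m := by rw [hGγ, ← Real.rpow_mul_natCast hp0.le]
          _ ≤ (Fintype.card Γ : ℝ) ^ n₀ := pow_le_pow_right₀ hG1 hmn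
      refine le_trans ?_ hr1
      rw [inv_mul_le_iff₀ (by positivity), mul_one]
      exact h3
  refine ⟨L, α, γ, hL0, hlim, hle, hLα, hGγ, hle', hlow, hγ1, ?_, hαγ⟩
  -- the deletion bound
  by_contra hcon
  push Not at hcon
  obtain ⟨ε, hε⟩ : ∃ ε : ℝ, ε = (γ - 1 / 2 - α) / 2 := ⟨_, rfl⟩
  have hε0 : 0 < ε := by rw [hε]; linarith
  have h := lowlim (p := p) hv hlow hGγ hαγ (x := 1 / 2) (φ := γ - 1 / 2) (by norm_num)
    (by norm_num) (by linarith) hε0
  have h1 : Tendsto (fun n : ℕ => (1 : ℝ)) atTop (𝓝 0) := by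
    refine h.congr' ?_
    filter_upwards [eventually_ge_atTop 1] with n hn
    rw [filter_true_of_mem, total]
    intro S _ A _ hA
    refine lt_of_le_of_lt ((Nat.cast_le.2 (le_r v hA)).trans (hle' n)) ?_
    apply Real.rpow_lt_rpow_of_exponent_lt hp1
    have hn' : (0 : ℝ) < n := by exact_mod_cast hn
    apply mul_lt_mul_of_pos_right _ hn'
    rw [hε]; linarith
  exact absurd (tendsto_nhds_unique h1 tendsto_const_nhds) (by norm_num)

/-- the probability of `E` for the random subset of density `q` -/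
noncomputable def Pr {V : Type} [Fintype V] [DecidableEq V] (q : ℝ) (E : Finset V → Prop)
    [DecidablePred E] : ℝ :=
  ∑ S ∈ univ.filter E, q ^ S.card * (1 - q) ^ (Fintype.card V - S.card)

theorem Pr_eq {V : Type} [Fintype V] [DecidableEq V] (q : ℝ) (E : Finset V → Prop)
    [DecidablePred E] : Pr q E = ∑ S ∈ (univ : Finset V).powerset.filter E, wt univ q S := by
  unfold Pr wt
  rw [powerset_univ, card_univ]

open Classical in
theorem both {v : Fin 3 → Γ} (hv : Function.Injective v) {L α γ : ℝ} (hg : Growth p v L α γ)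
    {x φ : ℝ} (hx : 0 ≤ x) (hφ : φ = γ - x - (γ - α) * max 0 (1 - 2 * x)) (hφ0 : 0 < φ)
    {ε : ℝ} (hε : 0 < ε) :
    Tendsto (fun n : ℕ => Pr (V := Fin n → Γ) ((p : ℝ) ^ (-(x * n))) fun S =>
      (∃ A ⊆ S, Free (p := p) v A ∧ (p : ℝ) ^ ((φ - ε) * n) ≤ (A.card : ℝ)) ∧
      ∀ A ⊆ S, Free (p := p) v A → (A.card : ℝ) ≤ (p : ℝ) ^ ((φ + ε) * n)) atTop (𝓝 1) := by
  have hp1 : (1 : ℝ) < p := by exact_mod_cast hp.out.one_lt
  have hp0 : (0 : ℝ) < p := by linarith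
  have h1 := lowlim (p := p) hv hg.low hg.hG hg.le_γ hx hφ hφ0 hε
  have h2 := upplim (p := p) hv hg.le' hg.hG hg.le_γ hg.half hx hφ hφ0 hε
  have h3 := (h1.add h2).const_sub 1
  rw [add_zero, sub_zero] at h3
  refine tendsto_of_tendsto_of_tendsto_of_le_of_le h3 tendsto_const_nhds ?_ ?_
  · intro n
    have hq1 : (p : ℝ) ^ (-(x * n)) ≤ 1 := Real.rpow_le_one_of_one_le_of_nonpos hp1.le (by
      have : 0 ≤ x * n := mul_nonneg hx (Nat.cast_nonneg _)
      linarith)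
    simp only
    rw [Pr_eq, sub_le_iff_le_add', ← total (univ : Finset (Fin n → Γ)) ((p : ℝ) ^ (-(x * n)))]
    have e : ((univ : Finset (Fin n → Γ)).powerset) =
        (univ : Finset (Fin n → Γ)).powerset.filter (fun _ => True) := by simp
    rw [e, filter_filter, filter_filter, filter_filter]
    simp only [true_and]
    have hu1 := union (U := (univ : Finset (Fin n → Γ))) (q := (p : ℝ) ^ (-(x * n)))
      (by positivity) hq1 (P := fun _ => True)
      (Q := fun S => (∀ A ⊆ S, Free (p := p) v A → (A.card : ℝ) < (p : ℝ) ^ ((φ - ε) * n)) ∨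
        (∃ A ⊆ S, Free (p := p) v A ∧ (p : ℝ) ^ ((φ + ε) * n) < (A.card : ℝ)))
      (R := fun S => (∃ A ⊆ S, Free (p := p) v A ∧ (p : ℝ) ^ ((φ - ε) * n) ≤ (A.card : ℝ)) ∧
        ∀ A ⊆ S, Free (p := p) v A → (A.card : ℝ) ≤ (p : ℝ) ^ ((φ + ε) * n)) (by
        intro S _ _
        by_cases c1 : ∀ A ⊆ S, Free (p := p) v A → (A.card : ℝ) < (p : ℝ) ^ ((φ - ε) * n)
        · exact Or.inl (Or.inl c1)
        by_cases c2 : ∃ A ⊆ S, Free (p := p) v A ∧ (p : ℝ) ^ ((φ + ε) * n) < (A.card : ℝ)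
        · exact Or.inl (Or.inr c2)
        · right
          push Not at c1 c2
          exact ⟨c1, c2⟩)
    have hu2 := union (U := (univ : Finset (Fin n → Γ))) (q := (p : ℝ) ^ (-(x * n)))
      (by positivity) hq1
      (P := fun S => (∀ A ⊆ S, Free (p := p) v A → (A.card : ℝ) < (p : ℝ) ^ ((φ - ε) * n)) ∨
        (∃ A ⊆ S, Free (p := p) v A ∧ (p : ℝ) ^ ((φ + ε) * n) < (A.card : ℝ)))
      (Q := fun S => ∀ A ⊆ S, Free (p := p) v A → (A.card : ℝ) < (p : ℝ) ^ ((φ - ε) * n))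
      (R := fun S => ∃ A ⊆ S, Free (p := p) v A ∧ (p : ℝ) ^ ((φ + ε) * n) < (A.card : ℝ))
      (fun S _ h => h)
    exact hu1.trans (add_le_add_left hu2 _)
  · intro n
    have hq1 : (p : ℝ) ^ (-(x * n)) ≤ 1 := Real.rpow_le_one_of_one_le_of_nonpos hp1.le (by
      have : 0 ≤ x * n := mul_nonneg hx (Nat.cast_nonneg _)
      linarith)
    simp only
    rw [Pr_eq, ← total (univ : Finset (Fin n → Γ)) ((p : ℝ) ^ (-(x * n)))]
    exact sum_le_sum_of_subset_of_nonneg (filter_subset _ _) fun S _ _ =>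
      wt_nonneg (by positivity) hq1 S

theorem Pr_mono {V : Type} [Fintype V] [DecidableEq V] {q : ℝ} (h0 : 0 ≤ q) (h1 : q ≤ 1)
    {E E' : Finset V → Prop} [DecidablePred E] [DecidablePred E'] (h : ∀ S, E S → E' S) :
    Pr q E ≤ Pr q E' := by
  rw [Pr_eq, Pr_eq]
  apply sum_le_sum_of_subset_of_nonneg
  · intro S hS
    rw [mem_filter] at hS ⊢
    exact ⟨hS.1, h S hS.2⟩
  · intro S _ _
    exact wt_nonneg h0 h1 S

theorem Pr_le_one {V : Type} [Fintype V] [DecidableEq V] {q : ℝ} (h0 : 0 ≤ q) (h1 : q ≤ 1)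
    (E : Finset V → Prop) [DecidablePred E] : Pr q E ≤ 1 := by
  rw [Pr_eq, ← total (univ : Finset V) q]
  exact sum_le_sum_of_subset_of_nonneg (filter_subset _ _) fun S _ _ => wt_nonneg h0 h1 S

theorem Pr_disj {V : Type} [Fintype V] [DecidableEq V] {q : ℝ} (h0 : 0 ≤ q) (h1 : q ≤ 1)
    {E E' : Finset V → Prop} [DecidablePred E] [DecidablePred E'] (h : ∀ S, E S → ¬ E' S) :
    Pr q E + Pr q E' ≤ 1 := by
  rw [Pr_eq, Pr_eq, ← total (univ : Finset V) q, ← sum_union]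
  · exact sum_le_sum_of_subset_of_nonneg (union_subset (filter_subset _ _) (filter_subset _ _))
      fun S _ _ => wt_nonneg h0 h1 S
  · rw [disjoint_filter]
    exact fun S _ hE => h S hE

open Classical in
/-- bounds for random sets of one density are equivalent to bounds for all sets -/
theorem equiv {v : Fin 3 → Γ} (hv : Function.Injective v) {L α γ : ℝ} (hg : Growth p v L α γ)
    {x φ : ℝ} (hx : 0 ≤ x) (hφ : φ = γ - x - (γ - α) * max 0 (1 - 2 * x)) (hφ0 : 0 < φ) (β : ℝ) :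
    (∀ ε : ℝ, 0 < ε → Tendsto (fun n : ℕ => Pr (V := Fin n → Γ) ((p : ℝ) ^ (-(x * n))) fun S =>
      ∀ A ⊆ S, Free (p := p) v A → (A.card : ℝ) ≤ (p : ℝ) ^ ((β + ε) * n)) atTop (𝓝 1)) ↔
    φ ≤ β := by
  have hp1 : (1 : ℝ) < p := by exact_mod_cast hp.out.one_lt
  have hp0 : (0 : ℝ) < p := by linarith
  have hq1 : ∀ n : ℕ, (p : ℝ) ^ (-(x * n)) ≤ 1 := fun n =>
    Real.rpow_le_one_of_one_le_of_nonpos hp1.le (by
      have : 0 ≤ x * n := mul_nonneg hx (Nat.cast_nonneg _)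
      linarith)
  constructor
  · intro h
    by_contra hcon
    push Not at hcon
    obtain ⟨ε, hε⟩ : ∃ ε : ℝ, ε = (φ - β) / 3 := ⟨_, rfl⟩
    have hε0 : 0 < ε := by rw [hε]; linarith
    have h1 := h ε hε0
    have h2 := both hv hg hx hφ hφ0 hε0
    have h3 := h1.add h2
    have h4 : (1 : ℝ) + 1 ≤ 1 := by
      refine le_of_tendsto h3 ?_
      filter_upwards [eventually_ge_atTop 1] with n hn
      apply Pr_disj (by positivity) (hq1 n)
      rintro S hS ⟨⟨A, hA, hf, hc⟩, _⟩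
      have h5 := hS A hA hf
      have hn' : (0 : ℝ) < n := by exact_mod_cast hn
      have h6 : (p : ℝ) ^ ((β + ε) * n) < (p : ℝ) ^ ((φ - ε) * n) := by
        apply Real.rpow_lt_rpow_of_exponent_lt hp1
        apply mul_lt_mul_of_pos_right _ hn'
        rw [hε]; linarith
      linarith
    linarith
  · intro h ε hε
    have h2 := both hv hg hx hφ hφ0 hε
    refine tendsto_of_tendsto_of_tendsto_of_le_of_le h2 tendsto_const_nhds ?_ ?_
    · intro n
      apply Pr_mono (by positivity) (hq1 n)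
      rintro S ⟨_, hS⟩ A hA hf
      refine (hS A hA hf).trans ?_
      apply Real.rpow_le_rpow_of_exponent_le hp1.le
      exact mul_le_mul_of_nonneg_right (by linarith) (Nat.cast_nonneg _)
    · intro n
      exact Pr_le_one (by positivity) (hq1 n) _

end Pool.Agent.Run7.h918.SP
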