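import Pool.Agent.Run7.h918.SP.Tree
import Pool.Agent.Run7.h125.Sat.Limit

/-!
# Three-point configurations: the symmetric relation of the nontrivial copies
-/

set_option autoImplicit false

namespace Pool.Agent.Run7.h918.SP

open Finset Run7.h125.Sat

variable {p : ℕ} [hp : Fact p.Prime] {Γ : Type} [AddCommGroup Γ] [Module (ZMod p) Γ]

theorem smul_cancel {a b : ZMod p} {w : Γ} (hw : w ≠ 0) (h : a • w = b • w) : a = b := by
  by_contra hab
  apply hw
  have h1 : (a - b) • w = 0 := by rw [sub_smul, h, sub_self]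
  have h2 : (a - b)⁻¹ • ((a - b) • w) = 0 := by rw [h1, smul_zero]
  rwa [smul_smul, inv_mul_cancel₀ (sub_ne_zero.2 hab), one_smul] at h2

theorem pt_det {I : Type} {v : Fin 3 → Γ} (hv : Function.Injective v) {j k : Fin 3} (hjk : j ≠ k)
    {x x' : I → Γ} {z z' : I → ZMod p} (h1 : pt v x z j = pt v x' z' j)
    (h2 : pt v x z k = pt v x' z' k) : x = x' ∧ z = z' := by
  have hz : z = z' := by
    funext i
    have e1 := congrFun h1 i
    have e2 := congrFun h2 i
    rw [pt_apply, pt_apply] at e1 e2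
    have hw : v j - v k ≠ 0 := sub_ne_zero.2 fun h => hjk (hv h)
    apply smul_cancel hw
    rw [smul_sub, smul_sub]
    have e3 : (x i + z i • v j) - (x i + z i • v k) =
        (x' i + z' i • v j) - (x' i + z' i • v k) := by rw [e1, e2]
    rwa [add_sub_add_left_eq_sub, add_sub_add_left_eq_sub] at e3
  refine ⟨?_, hz⟩
  funext i
  have e1 := congrFun h1 i
  rw [pt_apply, pt_apply, hz] at e1
  exact add_right_cancel e1

theorem pt_ne {I : Type} {v : Fin 3 → Γ} (hv : Function.Injective v) {j k : Fin 3} (hjk : j ≠ k)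
    {x : I → Γ} {z : I → ZMod p} (hz : z ≠ 0) : pt v x z j ≠ pt v x z k := by
  intro h
  apply hz
  funext i
  have e := congrFun h i
  rw [pt_apply, pt_apply] at e
  have e2 := add_left_cancel e
  have hw : v j - v k ≠ 0 := sub_ne_zero.2 fun h => hjk (hv h)
  apply smul_cancel hw
  rw [smul_sub, e2, sub_self]
  simp

/-- the symmetric relation -/
def H {I : Type} (v : Fin 3 → Γ) (a b c : I → Γ) : Prop :=
  ∃ (x : I → Γ) (z : I → ZMod p) (σ : Equiv.Perm (Fin 3)), z ≠ 0 ∧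
    a = pt v x z (σ 0) ∧ b = pt v x z (σ 1) ∧ c = pt v x z (σ 2)

theorem H_swap {I : Type} (v : Fin 3 → Γ) (a b c : I → Γ) (h : H (p := p) v a b c) :
    H (p := p) v a c b := by
  obtain ⟨x, z, σ, hz, h0, h1, h2⟩ := h
  refine ⟨x, z, σ * Equiv.swap 1 2, hz, ?_, ?_, ?_⟩
  · rw [h0, Equiv.Perm.mul_apply, show (Equiv.swap (1 : Fin 3) 2) 0 = 0 by decide]
  · rw [h2, Equiv.Perm.mul_apply, show (Equiv.swap (1 : Fin 3) 2) 1 = 2 by decide]
  · rw [h1, Equiv.Perm.mul_apply, show (Equiv.swap (1 : Fin 3) 2) 2 = 1 by decide]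

theorem H_cyc {I : Type} (v : Fin 3 → Γ) (a b c : I → Γ) (h : H (p := p) v a b c) :
    H (p := p) v b c a := by
  obtain ⟨x, z, σ, hz, h0, h1, h2⟩ := h
  refine ⟨x, z, σ * finRotate 3, hz, ?_, ?_, ?_⟩
  · rw [h1, Equiv.Perm.mul_apply, show (finRotate 3) 0 = 1 by decide]
  · rw [h2, Equiv.Perm.mul_apply, show (finRotate 3) 1 = 2 by decide]
  · rw [h0, Equiv.Perm.mul_apply, show (finRotate 3) 2 = 0 by decide]

theorem H_irr {I : Type} {v : Fin 3 → Γ} (hv : Function.Injective v) (a b : I → Γ) :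
    ¬ H (p := p) v a a b := by
  rintro ⟨x, z, σ, hz, h0, h1, _⟩
  exact pt_ne hv (fun h => absurd (σ.injective h) (by decide)) hz (h0.symm.trans h1)

theorem free_H {I : Type} {v : Fin 3 → Γ} {S : Finset (I → Γ)} (hS : Free (p := p) v S) :
    ∀ a ∈ S, ∀ b ∈ S, ∀ c ∈ S, ¬ H (p := p) v a b c := by
  rintro a ha b hb c hc ⟨x, z, σ, hz, h0, h1, h2⟩
  apply hz
  apply hS x z
  intro j
  obtain ⟨i, rfl⟩ := σ.surjective j
  fin_cases i
  · exact h0 ▸ ha
  · exact h1 ▸ hb
  · exact h2 ▸ hc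

variable [Fintype Γ] [DecidableEq Γ]

theorem H_cod {n : ℕ} {v : Fin 3 → Γ} (hv : Function.Injective v) (U : Finset (Fin n → Γ))
    (a b : Fin n → Γ) : ((nb (H (p := p) v a) U b).card : ℝ) ≤ 6 := by
  classical
  have h1 : nb (H (p := p) v a) U b ⊆ (univ : Finset (Equiv.Perm (Fin 3))).biUnion fun σ =>
      U.filter fun c => ∃ (x : Fin n → Γ) (z : Fin n → ZMod p), z ≠ 0 ∧
        a = pt v x z (σ 0) ∧ b = pt v x z (σ 1) ∧ c = pt v x z (σ 2) := by
    intro c hc
    rw [mem_nb] at hc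
    obtain ⟨hcU, x, z, σ, hz, h0, h1, h2⟩ := hc
    rw [mem_biUnion]
    exact ⟨σ, mem_univ _, mem_filter.2 ⟨hcU, x, z, hz, h0, h1, h2⟩⟩
  have h2 := (card_le_card h1).trans card_biUnion_le
  have h3 : ∑ σ : Equiv.Perm (Fin 3), (U.filter fun c => ∃ (x : Fin n → Γ) (z : Fin n → ZMod p),
      z ≠ 0 ∧ a = pt v x z (σ 0) ∧ b = pt v x z (σ 1) ∧ c = pt v x z (σ 2)).card ≤
      ∑ _σ : Equiv.Perm (Fin 3), 1 := by
    refine sum_le_sum fun σ _ => ?_
    rw [card_le_one]
    intro c hc c' hc'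
    rw [mem_filter] at hc hc'
    obtain ⟨_, x, z, _, h0, h1, h2⟩ := hc
    obtain ⟨_, x', z', _, h0', h1', h2'⟩ := hc'
    obtain ⟨rfl, rfl⟩ := pt_det hv (fun h => absurd (σ.injective h) (by decide))
      (h0.symm.trans h0') (h1.symm.trans h1')
    rw [h2, h2']
  have h4 : ∑ _σ : Equiv.Perm (Fin 3), 1 = 6 := by
    rw [sum_const, card_univ, Fintype.card_perm, Fintype.card_fin]
    rfl
  have h5 := h2.trans (h3.trans h4.le)
  exact_mod_cast h5

theorem ntc_le_tr {n : ℕ} {v : Fin 3 → Γ} (hv : Function.Injective v) (W : Finset (Fin n → Γ)) :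
    (ntc (p := p) v W).card ≤ (tr (H (p := p) v) W).card := by
  apply card_le_card_of_injOn (fun q => (pt v q.1 q.2 0, pt v q.1 q.2 1, pt v q.1 q.2 2))
  · rintro ⟨x, z⟩ hq
    rw [mem_coe, mem_ntc] at hq
    rw [mem_coe, mem_tr]
    exact ⟨⟨hq.1 0, hq.1 1, hq.1 2⟩, x, z, 1, hq.2, rfl, rfl, rfl⟩
  · rintro ⟨x, z⟩ _ ⟨x', z'⟩ _ h
    simp only [Prod.mk.injEq] at h
    obtain ⟨rfl, rfl⟩ := pt_det hv (show (0 : Fin 3) ≠ 1 by decide) h.1 h.2.1
    rfl

/-- `p ≤ |Γ|` -/
theorem p_le {v : Fin 3 → Γ} (hv : Function.Injective v) : p ≤ Fintype.card Γ := by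
  have h : Function.Injective (fun t : ZMod p => t • (v 0 - v 1)) := by
    intro a b hab
    exact smul_cancel (sub_ne_zero.2 fun h => absurd (hv h) (by decide)) hab
  have := Fintype.card_le_of_injective _ h
  rwa [ZMod.card] at this

/-- a set minus one point of each nontrivial copy -/
theorem delete {n : ℕ} (v : Fin 3 → Γ) (A : Finset (Fin n → Γ)) :
    ∃ B ⊆ A, Free (p := p) v B ∧ A.card ≤ B.card + (ntc (p := p) v A).card := by
  classical
  set D := (ntc (p := p) v A).image fun q => pt v q.1 q.2 0 with hD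
  refine ⟨A \ D, sdiff_subset, ?_, ?_⟩
  · intro x z h
    by_contra hz
    have h2 : (x, z) ∈ ntc (p := p) v A :=
      mem_ntc.2 ⟨fun i => (mem_sdiff.1 (h i)).1, hz⟩
    exact (mem_sdiff.1 (h 0)).2 (mem_image.2 ⟨(x, z), h2, rfl⟩)
  · have h3 : A.card ≤ D.card + (A \ D).card := by
      calc A.card ≤ (D ∪ (A \ D)).card := card_le_card (by
            intro x hx
            by_cases hxD : x ∈ D
            · exact mem_union_left _ hxD
            · exact mem_union_right _ (mem_sdiff.2 ⟨hx, hxD⟩))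
        _ ≤ _ := card_union_le _ _
    have h4 : D.card ≤ (ntc (p := p) v A).card := card_image_le
    omega

end Pool.Agent.Run7.h918.SP
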