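import Pool.Agent.Run7.h918.SP.Cont
import Pool.Agent.Run7.h918.SP.LowLim

/-!
# The upper bound, asymptotically
-/

set_option autoImplicit false

namespace Pool.Agent.Run7.h918.SP

open Finset Run7.h125.Sat Filter Topology

variable {p : ℕ} [hp : Fact p.Prime] {Γ : Type} [AddCommGroup Γ] [Module (ZMod p) Γ]
  [Fintype Γ] [DecidableEq Γ]

theorem lin_exp {b : ℝ} (hb : 1 < b) (A B : ℝ) {κ : ℝ} (hκ : 0 < κ) :
    ∀ᶠ n : ℕ in atTop, A + B * n ≤ b ^ (κ * n) := by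
  have hr : 1 < b ^ κ := Real.one_lt_rpow hb hκ
  have h0 := tendsto_pow_const_div_const_pow_of_one_lt 0 hr
  have h1 := tendsto_pow_const_div_const_pow_of_one_lt 1 hr
  have h2 := (h0.const_mul A).add (h1.const_mul B)
  simp only [mul_zero, add_zero, pow_zero, pow_one] at h2
  filter_upwards [h2.eventually_le_const (show (0 : ℝ) < 1 by norm_num)] with n hn
  have hpos : 0 < (b ^ κ) ^ n := by positivity
  have e : A * (1 / (b ^ κ) ^ n) + B * (n / (b ^ κ) ^ n) = (A + B * n) / (b ^ κ) ^ n := by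
    field_simp
  rw [e, div_le_one hpos] at hn
  rwa [Real.rpow_mul (by linarith), Real.rpow_natCast]

theorem triv {n : ℕ} (v : Fin 3 → Γ) : Cov (H (p := p) v) ((Fintype.card Γ : ℝ) ^ n)
    (univ : Finset (Fin n → Γ)) univ (fun _ _ => False) 0 := by
  refine ⟨fun _ => univ, fun _ => ⟨subset_univ _, ?_⟩, fun S _ _ _ =>
    ⟨∅, empty_subset _, by simp, fun x _ => mem_union_right _ (mem_univ _)⟩⟩
  rw [card_univ, Fintype.card_fun, Fintype.card_fin]
  push_cast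
  exact le_rfl

theorem covers {v : Fin 3 → Γ} (hv : Function.Injective v) {α γ : ℝ}
    (hr : ∀ n : ℕ, (r p v n : ℝ) ≤ (p : ℝ) ^ (α * n))
    (hγ : (Fintype.card Γ : ℝ) = (p : ℝ) ^ γ) (hαγ : α ≤ γ) (hα2 : γ - 1 / 2 ≤ α)
    {x φ : ℝ} (hx : 0 ≤ x)
    (hφ : φ = γ - x - (γ - α) * max 0 (1 - 2 * x)) (hφ0 : 0 < φ) {ε : ℝ} (hε : 0 < ε) :
    ∀ᶠ n : ℕ in atTop, ∃ M b : ℝ, 0 ≤ M ∧
      Cov (H (p := p) v) M (univ : Finset (Fin n → Γ)) univ (fun _ _ => False) b ∧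
      b ≤ (p : ℝ) ^ (-(x * n)) * M ∧
      b * Real.log ((Fintype.card Γ : ℝ) ^ n + 1) ≤ (p : ℝ) ^ (-(x * n)) * M ∧
      (p : ℝ) ^ (φ * n) ≤ (p : ℝ) ^ (-(x * n)) * M ∧
      5 * ((p : ℝ) ^ (-(x * n)) * M) ≤ (p : ℝ) ^ ((φ + ε) * n) := by
  have hp1 : (1 : ℝ) < p := by exact_mod_cast hp.out.one_lt
  have hp0 : (0 : ℝ) < p := by linarith
  have hqpos : ∀ n : ℕ, 0 < (p : ℝ) ^ (-(x * n)) := fun n => by positivity
  have hq1 : ∀ n : ℕ, (p : ℝ) ^ (-(x * n)) ≤ 1 := fun n =>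
    Real.rpow_le_one_of_one_le_of_nonpos hp1.le (by
      have : 0 ≤ x * n := mul_nonneg hx (Nat.cast_nonneg _)
      linarith)
  have hGn : ∀ n : ℕ, (Fintype.card Γ : ℝ) ^ n = (p : ℝ) ^ (γ * n) := fun n => by
    rw [hγ, ← Real.rpow_mul_natCast hp0.le]
  obtain ⟨μ, hμ⟩ : ∃ μ : ℝ, μ = max 0 (1 - 2 * x) := ⟨_, rfl⟩
  have hμ0 : 0 ≤ μ := by rw [hμ]; exact le_max_left _ _
  rw [← hμ] at hφ
  have h5 := lin_exp hp1 5 0 (show 0 < ε / 2 by positivity)
  by_cases hcase : (γ - α) * μ ≤ ε / 2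
  · filter_upwards [h5] with n hn5
    have hn0 : (0 : ℝ) ≤ n := Nat.cast_nonneg _
    have e1 : (p : ℝ) ^ (-(x * n)) * (Fintype.card Γ : ℝ) ^ n = (p : ℝ) ^ ((γ - x) * n) := by
      rw [hGn, ← Real.rpow_add hp0]; congr 1; ring
    refine ⟨(Fintype.card Γ : ℝ) ^ n, 0, by positivity, triv v, by positivity,
      by rw [zero_mul]; positivity, ?_, ?_⟩
    · rw [e1]
      apply Real.rpow_le_rpow_of_exponent_le hp1.le
      apply mul_le_mul_of_nonneg_right _ hn0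
      have : 0 ≤ (γ - α) * μ := mul_nonneg (by linarith) hμ0
      linarith
    · rw [e1]
      have e2 : (p : ℝ) ^ ((φ + ε) * n) = (p : ℝ) ^ (ε / 2 * n) * (p : ℝ) ^ ((φ + ε / 2) * n) := by
        rw [← Real.rpow_add hp0]; congr 1; ring
      rw [e2]
      have h6 : (p : ℝ) ^ ((γ - x) * n) ≤ (p : ℝ) ^ ((φ + ε / 2) * n) := by
        apply Real.rpow_le_rpow_of_exponent_le hp1.le
        apply mul_le_mul_of_nonneg_right _ hn0
        linarith
      apply mul_le_mul _ h6 (by positivity) (by positivity)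
      linarith
  · push Not at hcase
    have he : 0 < γ - α := by
      rcases lt_or_eq_of_le (show 0 ≤ γ - α by linarith) with h | h
      · exact h
      · rw [← h, zero_mul] at hcase
        linarith
    obtain ⟨e, hee⟩ : ∃ e : ℝ, e = γ - α := ⟨_, rfl⟩
    rw [← hee] at hφ hcase he
    have hμpos : 0 < μ := by
      rcases lt_or_eq_of_le hμ0 with h | h
      · exact h
      · rw [← h, mul_zero] at hcase
        linarith
    have hμx : μ = 1 - 2 * x := by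
      rw [hμ] at hμpos ⊢
      rcases lt_max_iff.1 hμpos with h | h
      · exact absurd h (lt_irrefl _)
      · exact max_eq_right h.le
    obtain ⟨Y, hY⟩ : ∃ Y : ℝ, Y = e * (1 - 2 * x) - ε / 2 := ⟨_, rfl⟩
    have hY0 : 0 < Y := by rw [hY, ← hμx]; linarith
    obtain ⟨J, hJ1, hJ2⟩ : ∃ J : ℕ, 1 ≤ J ∧ Y / J ≤ ε / 2 / 2 := by
      obtain ⟨J, hJ⟩ := exists_nat_ge (Y / (ε / 2 / 2))
      refine ⟨J + 1, by omega, ?_⟩
      rw [div_le_iff₀ (by positivity)] at hJ ⊢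
      push_cast
      nlinarith
    obtain ⟨κ, hκ⟩ : ∃ κ : ℝ, κ = ε / 2 / (4 * e) := ⟨_, rfl⟩
    have hκ0 : 0 < κ := by rw [hκ]; positivity
    have hr' : ∀ n : ℕ, (r p v n : ℝ) ≤ ((Fintype.card Γ : ℝ) * (p : ℝ) ^ (-e)) ^ n := by
      intro n
      rw [hγ, ← Real.rpow_add hp0, ← Real.rpow_mul_natCast hp0.le]
      refine (hr n).trans (le_of_eq ?_)
      congr 1
      rw [hee]; ring
    have h1 := lin_exp hp1 10 0 (show 0 < ε / 2 / e by positivity)
    have h2 := lin_exp hp1 (24 * J * (1 + 1)) (24 * J * (γ * Real.log p)) hκ0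
    filter_upwards [h5, h1, h2, eventually_ge_atTop 1] with n hn5 hn10 hnl hn1
    have hn0 : (0 : ℝ) ≤ n := Nat.cast_nonneg _
    have hc := cont (p := p) hv he (by rw [hee]; linarith) hr' (n := n) (J := J) (ε := ε / 2) hx
      (by positivity) hY hY0 hJ1 hJ2 (by linarith)
    rw [← hκ] at hc
    obtain ⟨M, hM⟩ : ∃ M : ℝ, M = (Fintype.card Γ : ℝ) ^ n * (p : ℝ) ^ (-(Y * n)) := ⟨_, rfl⟩
    have hM0 : 0 < M := by
      rw [hM]
      have : (0 : ℝ) < Fintype.card Γ := by exact_mod_cast (Fintype.card_pos (α := Γ))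
      positivity
    obtain ⟨b, hb⟩ : ∃ b : ℝ, b = J * (24 * ((Fintype.card Γ : ℝ) ^ n *
      (p : ℝ) ^ (-((x + Y + κ) * n)))) := ⟨_, rfl⟩
    rw [← hM, ← hb] at hc
    have hqM0 : 0 < (p : ℝ) ^ (-(x * n)) * M := mul_pos (hqpos n) hM0
    have hbM : b * (p : ℝ) ^ (κ * n) = 24 * J * ((p : ℝ) ^ (-(x * n)) * M) := by
      have e1 : (p : ℝ) ^ (-((x + Y + κ) * n)) * (p : ℝ) ^ (κ * n) =
          (p : ℝ) ^ (-(x * n)) * (p : ℝ) ^ (-(Y * n)) := by
        rw [← Real.rpow_add hp0, ← Real.rpow_add hp0]; congr 1; ring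
      rw [hb, hM]
      calc (J : ℝ) * (24 * ((Fintype.card Γ : ℝ) ^ n * (p : ℝ) ^ (-((x + Y + κ) * n)))) *
            (p : ℝ) ^ (κ * n)
          = 24 * J * ((Fintype.card Γ : ℝ) ^ n * ((p : ℝ) ^ (-((x + Y + κ) * n)) *
            (p : ℝ) ^ (κ * n))) := by ring
        _ = _ := by rw [e1]; ring
    have hK0 : 0 < (p : ℝ) ^ (κ * n) := by positivity
    have hγ0 : 0 ≤ γ := by
      have : 0 ≤ (γ - α) * μ := mul_nonneg (by linarith) hμ0
      rw [← hee] at this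
      linarith
    have hlogp : 0 < Real.log p := Real.log_pos hp1
    have hlog : Real.log ((Fintype.card Γ : ℝ) ^ n + 1) ≤ 1 + γ * Real.log p * n := by
      have h6 : (1 : ℝ) ≤ (Fintype.card Γ : ℝ) ^ n := by
        rw [hGn]; exact Real.one_le_rpow hp1.le (by positivity)
      calc Real.log ((Fintype.card Γ : ℝ) ^ n + 1) ≤ Real.log (2 * (Fintype.card Γ : ℝ) ^ n) :=
            Real.log_le_log (by linarith) (by linarith)
        _ = Real.log 2 + γ * Real.log p * n := by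
            rw [Real.log_mul (by norm_num) (by linarith), hGn, Real.log_rpow hp0]; ring
        _ ≤ _ := by have := Real.log_two_lt_d9; linarith
    have hJ0 : (0 : ℝ) < J := by exact_mod_cast hJ1
    have hX0 : 0 ≤ γ * Real.log p * n := by positivity
    refine ⟨M, b, hM0.le, hc, ?_, ?_, ?_, ?_⟩
    · -- b ≤ qM
      have h6 : 24 * (J : ℝ) ≤ (p : ℝ) ^ (κ * n) := by
        refine le_trans ?_ hnl
        have : 0 ≤ 24 * (J : ℝ) * (γ * Real.log p) * n := by positivity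
        linarith
      have h7 : b * (p : ℝ) ^ (κ * n) ≤ ((p : ℝ) ^ (-(x * n)) * M) * (p : ℝ) ^ (κ * n) := by
        rw [hbM, mul_comm (24 * (J : ℝ))]
        exact mul_le_mul_of_nonneg_left h6 hqM0.le
      exact le_of_mul_le_mul_right h7 hK0
    · have h6 : 24 * (J : ℝ) * Real.log ((Fintype.card Γ : ℝ) ^ n + 1) ≤ (p : ℝ) ^ (κ * n) := by
        refine le_trans ?_ hnl
        calc 24 * (J : ℝ) * Real.log ((Fintype.card Γ : ℝ) ^ n + 1)
            ≤ 24 * (J : ℝ) * (1 + γ * Real.log p * n) :=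
              mul_le_mul_of_nonneg_left hlog (by positivity)
          _ ≤ _ := by nlinarith
      have h7 : b * Real.log ((Fintype.card Γ : ℝ) ^ n + 1) * (p : ℝ) ^ (κ * n) ≤
          ((p : ℝ) ^ (-(x * n)) * M) * (p : ℝ) ^ (κ * n) := by
        calc b * Real.log ((Fintype.card Γ : ℝ) ^ n + 1) * (p : ℝ) ^ (κ * n)
            = b * (p : ℝ) ^ (κ * n) * Real.log ((Fintype.card Γ : ℝ) ^ n + 1) := by ring
          _ = ((p : ℝ) ^ (-(x * n)) * M) *
              (24 * (J : ℝ) * Real.log ((Fintype.card Γ : ℝ) ^ n + 1)) := by rw [hbM]; ring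
          _ ≤ _ := mul_le_mul_of_nonneg_left h6 hqM0.le
      exact le_of_mul_le_mul_right h7 hK0
    · rw [hM, hGn, ← Real.rpow_add hp0, ← Real.rpow_add hp0]
      apply Real.rpow_le_rpow_of_exponent_le hp1.le
      have e3 : -(x * n) + (γ * n + -(Y * n)) = (γ - x - Y) * n := by ring
      rw [e3]
      apply mul_le_mul_of_nonneg_right _ hn0
      rw [hφ, hY, hμx]
      linarith
    · have e4 : (p : ℝ) ^ (-(x * n)) * M = (p : ℝ) ^ ((φ + ε / 2) * n) := by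
        rw [hM, hGn, ← Real.rpow_add hp0, ← Real.rpow_add hp0]
        congr 1
        rw [hφ, hY, hμx]
        ring
      have e2 : (p : ℝ) ^ ((φ + ε) * n) = (p : ℝ) ^ (ε / 2 * n) * (p : ℝ) ^ ((φ + ε / 2) * n) := by
        rw [← Real.rpow_add hp0]; congr 1; ring
      rw [e4, e2]
      apply mul_le_mul_of_nonneg_right _ (by positivity)
      linarith

open Classical in
theorem upplim {v : Fin 3 → Γ} (hv : Function.Injective v) {α γ : ℝ}
    (hr : ∀ n : ℕ, (r p v n : ℝ) ≤ (p : ℝ) ^ (α * n))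
    (hγ : (Fintype.card Γ : ℝ) = (p : ℝ) ^ γ) (hαγ : α ≤ γ) (hα2 : γ - 1 / 2 ≤ α)
    {x φ : ℝ} (hx : 0 ≤ x)
    (hφ : φ = γ - x - (γ - α) * max 0 (1 - 2 * x)) (hφ0 : 0 < φ) {ε : ℝ} (hε : 0 < ε) :
    Tendsto (fun n : ℕ => ∑ S ∈ (univ : Finset (Fin n → Γ)).powerset.filter
      (fun S => ∃ A ⊆ S, Free (p := p) v A ∧ (p : ℝ) ^ ((φ + ε) * n) < (A.card : ℝ)),
        wt univ ((p : ℝ) ^ (-(x * n))) S) atTop (𝓝 0) := by
  have hp1 : (1 : ℝ) < p := by exact_mod_cast hp.out.one_lt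
  have hp0 : (0 : ℝ) < p := by linarith
  have hqpos : ∀ n : ℕ, 0 < (p : ℝ) ^ (-(x * n)) := fun n => by positivity
  have hq1 : ∀ n : ℕ, (p : ℝ) ^ (-(x * n)) ≤ 1 := fun n =>
    Real.rpow_le_one_of_one_le_of_nonpos hp1.le (by
      have : 0 ≤ x * n := mul_nonneg hx (Nat.cast_nonneg _)
      linarith)
  have hGn : ∀ n : ℕ, (Fintype.card Γ : ℝ) ^ n = (p : ℝ) ^ (γ * n) := fun n => by
    rw [hγ, ← Real.rpow_mul_natCast hp0.le]
  have h := covers (p := p) hv hr hγ hαγ hα2 hx hφ hφ0 hε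
  refine squeeze_zero' (Eventually.of_forall fun n => sum_nonneg fun S _ =>
    wt_nonneg (hqpos n).le (hq1 n) S) ?_ (exp_dec (c := 1) one_pos hp1 hφ0)
  filter_upwards [h] with n hn
  obtain ⟨M, b, hM, hc, hb1, hb2, hM1, hM2⟩ := hn
  have h1 := prob (hqpos n).le (hq1 n) hM hc hb1 hb2
  refine le_trans ?_ (h1.trans ?_)
  · apply sum_le_sum_of_subset_of_nonneg
    · intro S hS
      rw [mem_filter] at hS ⊢
      obtain ⟨hS1, A, hA, hf, hc⟩ := hS
      exact ⟨hS1, A, hA, hf, hM2.trans hc.le⟩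
    · intro S _ _
      exact wt_nonneg (hqpos n).le (hq1 n) S
  · apply Real.exp_le_exp.2
    linarith

end Pool.Agent.Run7.h918.SP
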